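import Pool.Agent.MP_030fd4_nt.Defs
import Mathlib

section

/-! Identities for the hypergeometric term: recurrence, Gosper relation, terminating sums. -/

namespace Pool.Agent.MP_030fd4_nt

open Finset

variable {K : Type*} [Field K] [CharZero K]

theorem rising_succ (x : K) (k : ℕ) : rising x (k + 1) = rising x k * (x + k) := by
  simp [rising, prod_range_succ]

theorem rising_succ' (x : K) (k : ℕ) : rising x (k + 1) = x * rising (x + 1) k := by
  simp only [rising, prod_range_succ']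
  rw [mul_comm]
  congr 1
  · simp
  · exact prod_congr rfl fun i _ => by push_cast; ring

theorem rising_zero (x : K) : rising x 0 = 1 := by simp [rising]

theorem term_zero (x : K) : term x 0 = 1 := by simp [term, rising]

theorem natCast_add_one_ne (k : ℕ) : ((k : K) + 1) ≠ 0 := by exact_mod_cast k.succ_ne_zero

theorem term_succ (x : K) (k : ℕ) :
    term x (k + 1) = term x k * ((1 / 2 + k) * (-x + k) * (x + 1 + k) / ((k : K) + 1) ^ 3) := by
  have h1 : ((k.factorial : K)) ≠ 0 := by exact_mod_cast k.factorial_ne_zero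
  have h2 := natCast_add_one_ne (K := K) k
  simp only [term, rising_succ, Nat.factorial_succ]
  push_cast
  field_simp

theorem term_up (z : K) (n : ℕ) :
    ((n : K) + 1) ^ 3 * term (z + 1) (n + 1) =
      -(1 / 2 + n) * term z n * (z + n + 1) * (z + n + 2) := by
  have h1 : ((n.factorial : K)) ≠ 0 := by exact_mod_cast n.factorial_ne_zero
  have h2 := natCast_add_one_ne (K := K) n
  have e1 : rising (-(z + 1)) (n + 1) = -(z + 1) * rising (-z) n := by
    rw [rising_succ']; congr 2; ring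
  have e2 : (z + 1) * rising (z + 1 + 1) (n + 1) =
      rising (z + 1) n * (z + n + 1) * (z + n + 2) := by
    rw [← rising_succ', rising_succ, rising_succ]; push_cast; ring
  simp only [term, Nat.factorial_succ]
  rw [e1, rising_succ (1 / 2 : K)]
  push_cast
  field_simp
  linear_combination (-(1 + (n : K) * 2) * rising (1 / 2 : K) n * rising (-z) n) * e2

theorem term_down (z : K) (n : ℕ) :
    ((n : K) + 1) ^ 3 * term (z - 1) (n + 1) =
      -(1 / 2 + n) * term z n * (z - n) * (z - n - 1) := by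
  have h1 : ((n.factorial : K)) ≠ 0 := by exact_mod_cast n.factorial_ne_zero
  have h2 := natCast_add_one_ne (K := K) n
  have e1 : rising (z - 1 + 1) (n + 1) = z * rising (z + 1) n := by
    rw [rising_succ']; congr 2 <;> ring
  have e2 : -z * rising (-(z - 1)) (n + 1) = rising (-z) n * (-z + n) * (-z + n + 1) := by
    rw [show -(z - 1) = -z + 1 by ring, ← rising_succ', rising_succ, rising_succ]; push_cast; ring
  simp only [term, Nat.factorial_succ]
  rw [e1, rising_succ (1 / 2 : K)]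
  push_cast
  field_simp
  linear_combination (-(1 + (n : K) * 2) * rising (1 / 2 : K) n * rising (z + 1) n) * e2

/-- The recurrence in the parameter. -/
theorem trunc_rec (z : K) (N : ℕ) :
    (z + 1) ^ 2 * trunc (z + 1) (N + 1) - z ^ 2 * trunc (z - 1) (N + 1) =
      (2 * z + 1) * (2 * N + 1) * term z N := by
  induction N with
  | zero => simp [trunc, term_zero]; ring
  | succ N ih =>
    have h2 := natCast_add_one_ne (K := K) N
    have h3 : ((N : K) + 1) ^ 3 ≠ 0 := pow_ne_zero _ h2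
    have e1 := term_up z N
    have e2 := term_down z N
    have e3 : ((N : K) + 1) ^ 3 * term z (N + 1) =
        term z N * ((1 / 2 + N) * (-z + N) * (z + 1 + N)) := by
      rw [term_succ]; field_simp
    unfold trunc at ih ⊢
    rw [sum_range_succ _ (N + 1), sum_range_succ (fun k => term (z - 1) k) (N + 1)]
    apply mul_left_cancel₀ h3
    push_cast
    linear_combination ((N : K) + 1) ^ 3 * ih + (z + 1) ^ 2 * e1 - z ^ 2 * e2
      - (2 * z + 1) * (2 * (N + 1) + 1) * e3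

theorem term_nat_eq_zero {x k : ℕ} (h : x < k) : term (x : K) k = 0 := by
  have : rising (-(x : K)) k = 0 := by
    unfold rising
    exact prod_eq_zero (mem_range.2 h) (by ring)
  simp [term, this]

theorem term_nat_self_ne (x : ℕ) : term (x : K) x ≠ 0 := by
  have h1 : ((x.factorial : K)) ≠ 0 := by exact_mod_cast x.factorial_ne_zero
  unfold term rising
  refine div_ne_zero (mul_ne_zero (mul_ne_zero ?_ ?_) ?_) (pow_ne_zero _ h1)
  · refine prod_ne_zero_iff.2 fun i _ => ?_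
    have : ((2 * i + 1 : ℕ) : K) ≠ 0 := by exact_mod_cast (by omega : 2 * i + 1 ≠ 0)
    intro h; apply this; push_cast; linear_combination 2 * h
  · refine prod_ne_zero_iff.2 fun i hi => ?_
    intro h
    have : (i : K) = x := by linear_combination h
    have := Nat.cast_injective this
    have := mem_range.1 hi
    omega
  · refine prod_ne_zero_iff.2 fun i _ => ?_
    have : ((x + 1 + i : ℕ) : K) ≠ 0 := by exact_mod_cast (by omega : x + 1 + i ≠ 0)
    simpa using this

theorem trunc_odd (n : ℕ) : ∀ N, 2 * n + 1 < N → trunc ((2 * n + 1 : ℕ) : K) N = 0 := by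
  induction n with
  | zero =>
    intro N hN
    obtain ⟨N, rfl⟩ : ∃ N', N = N' + 1 := ⟨N - 1, by omega⟩
    have e := trunc_rec (0 : K) N
    have e0 : term (0 : K) N = 0 := by
      have := term_nat_eq_zero (K := K) (x := 0) (k := N) (by omega)
      simpa using this
    simpa [e0] using e
  | succ n ih =>
    intro N hN
    obtain ⟨N, rfl⟩ : ∃ N', N = N' + 1 := ⟨N - 1, by omega⟩
    have e := trunc_rec ((2 * n + 2 : ℕ) : K) N
    rw [term_nat_eq_zero (by omega)] at e
    have i1 := ih (N + 1) (by omega)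
    rw [show ((2 * n + 2 : ℕ) : K) - 1 = ((2 * n + 1 : ℕ) : K) by push_cast; ring, i1,
      show ((2 * n + 2 : ℕ) : K) + 1 = ((2 * (n + 1) + 1 : ℕ) : K) by push_cast; ring] at e
    have h : ((2 * (n + 1) + 1 : ℕ) : K) ≠ 0 := by exact_mod_cast (by omega : 2 * (n + 1) + 1 ≠ 0)
    have : ((2 * (n + 1) + 1 : ℕ) : K) ^ 2 * trunc ((2 * (n + 1) + 1 : ℕ) : K) (N + 1) = 0 := by
      linear_combination e
    exact (mul_eq_zero.1 this).resolve_left (pow_ne_zero _ h)

/-- The central quotient (1/2)_n / n!. -/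
noncomputable def cen (K : Type*) [Field K] (n : ℕ) : K := rising (1 / 2) n / (n.factorial : K)

theorem cen_succ (n : ℕ) : ((n : K) + 1) * cen K (n + 1) = cen K n * (1 / 2 + n) := by
  have h1 : ((n.factorial : K)) ≠ 0 := by exact_mod_cast n.factorial_ne_zero
  have h2 := natCast_add_one_ne (K := K) n
  simp only [cen, rising_succ, Nat.factorial_succ]
  push_cast
  field_simp

theorem cen_zero : cen K 0 = 1 := by simp [cen, rising]

theorem half_add_ne (n : ℕ) : (1 / 2 + (n : K)) ≠ 0 := by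
  have : ((2 * n + 1 : ℕ) : K) ≠ 0 := by exact_mod_cast (by omega : 2 * n + 1 ≠ 0)
  intro h; apply this; push_cast; linear_combination 2 * h

theorem rising_half_ne (n : ℕ) : rising (1 / 2 : K) n ≠ 0 :=
  prod_ne_zero_iff.2 fun i _ => half_add_ne i

theorem cen_ne (n : ℕ) : cen K n ≠ 0 :=
  div_ne_zero (rising_half_ne n) (by exact_mod_cast n.factorial_ne_zero)

theorem trunc_even (n : ℕ) : ∀ N, 2 * n < N → trunc ((2 * n : ℕ) : K) N = cen K n ^ 2 := by
  induction n with
  | zero =>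
    intro N hN
    obtain ⟨N, rfl⟩ : ∃ N', N = N' + 1 := ⟨N - 1, by omega⟩
    unfold trunc
    rw [sum_range_succ', term_zero, cen_zero, sum_eq_zero]
    · simp
    · intro k _; exact term_nat_eq_zero (by omega)
  | succ n ih =>
    intro N hN
    obtain ⟨N, rfl⟩ : ∃ N', N = N' + 1 := ⟨N - 1, by omega⟩
    have e := trunc_rec ((2 * n + 1 : ℕ) : K) N
    rw [term_nat_eq_zero (by omega)] at e
    have i1 := ih (N + 1) (by omega)
    rw [show ((2 * n + 1 : ℕ) : K) - 1 = ((2 * n : ℕ) : K) by push_cast; ring, i1,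
      show ((2 * n + 1 : ℕ) : K) + 1 = ((2 * (n + 1) : ℕ) : K) by push_cast; ring] at e
    have h2 := natCast_add_one_ne (K := K) n
    have c := cen_succ (K := K) n
    apply mul_left_cancel₀ (pow_ne_zero 2 (mul_ne_zero (two_ne_zero (α := K)) h2))
    push_cast at e ⊢
    linear_combination e - 4 * (((n : K) + 1) * cen K (n + 1) + cen K n * (1 / 2 + n)) * c

/-- The falling factorial. -/
noncomputable def ff (m : K) (i : ℕ) : K := ∏ l ∈ range i, (m - (l : K))

theorem ff_succ (m : K) (i : ℕ) : ff m (i + 1) = ff m i * (m - i) := by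
  simp [ff, prod_range_succ]

theorem ff_succ' (m : K) (i : ℕ) : ff m (i + 1) = m * ff (m - 1) i := by
  simp only [ff, prod_range_succ']
  rw [mul_comm]
  congr 1
  · simp
  · exact prod_congr rfl fun i _ => by push_cast; ring

theorem ff_nat_eq_zero {m i : ℕ} (h : m < i) : ff (m : K) i = 0 :=
  prod_eq_zero (mem_range.2 h) (by ring)

theorem ff_nat (m i : ℕ) : ff (m : K) i = (i.factorial : K) * (m.choose i : K) := by
  rw [← Nat.cast_mul, ← Nat.descFactorial_eq_factorial_mul_choose]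
  induction i with
  | zero => simp [ff]
  | succ i ih =>
    rw [ff_succ, ih, Nat.descFactorial_succ]
    rcases le_or_gt i m with h | h
    · push_cast [Nat.cast_sub h]; ring
    · simp [Nat.descFactorial_eq_zero_iff_lt.2 h]

/-- The normalised moments. -/
noncomputable def mom (t : K) (M n : ℕ) : K :=
  rising (1 / 2) n * ∑ m ∈ range M, term t m * ff (m : K) n

theorem mom_zero (t : K) (M : ℕ) : mom t M 0 = trunc t M := by
  simp [mom, rising, ff, trunc]

theorem mom_eq_zero (t : K) {M n : ℕ} (h : M ≤ n) : mom t M n = 0 := by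
  unfold mom
  rw [sum_eq_zero, mul_zero]
  intro m hm
  rw [ff_nat_eq_zero (by have := mem_range.1 hm; omega), mul_zero]

/-- Coefficients of the three term relation. -/
noncomputable def coA (t : K) (n : ℕ) : K := 2 * (n : K) ^ 2 - t * (t + 1)

noncomputable def coB (t : K) (n : ℕ) : K := (1 / 2 + n) ^ 2 * ((n : K) * (n + 1) - t * (t + 1))

theorem gosper (t : K) (i M : ℕ) :
    mom t M (i + 2) + coA t (i + 1) * mom t M (i + 1) + coB t i * mom t M i =
      rising (1 / 2) (i + 1) * ff ((M : K) - 1) i * ((M : K) ^ 3 * term t M) := by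
  induction M with
  | zero => simp [mom]
  | succ M ih =>
    have h2 := natCast_add_one_ne (K := K) M
    have e3 : ((M : K) + 1) ^ 3 * term t (M + 1) =
        term t M * ((1 / 2 + M) * (-t + M) * (t + 1 + M)) := by
      rw [term_succ]; field_simp
    have e4 : (M : K) * ff ((M : K) - 1) i = ff (M : K) i * (M - i) := by
      rw [← ff_succ', ff_succ]
    unfold mom at ih ⊢
    simp only [sum_range_succ]
    push_cast
    rw [e3, show (M : K) + 1 - 1 = M by ring]
    simp only [rising_succ, ff_succ, coA, coB] at ih ⊢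
    push_cast at ih ⊢
    linear_combination ih + rising (1 / 2 : K) i * (1 / 2 + i) * (M : K) ^ 2 * term t M * e4

/-- For a natural parameter the first two moments of the full sum do not both vanish. -/
theorem mom_one_ne {t M : ℕ} (h : t < M) (h0 : mom (t : K) M 0 = 0) : mom (t : K) M 1 ≠ 0 := by
  intro h1
  have key : ∀ n, mom (t : K) M n = 0 ∧ mom (t : K) M (n + 1) = 0 := by
    intro n
    induction n with
    | zero => exact ⟨h0, h1⟩
    | succ n ih =>
      refine ⟨ih.2, ?_⟩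
      have := gosper (t : K) n M
      rw [ih.1, ih.2, term_nat_eq_zero h] at this
      simpa using this
  have e := (key t).1
  unfold mom at e
  rw [sum_eq_single t] at e
  · refine mul_ne_zero (rising_half_ne t) (mul_ne_zero (term_nat_self_ne t) ?_) e
    rw [ff_nat]; simp [t.factorial_ne_zero]
  · intro m _ hm
    rcases lt_or_gt_of_ne hm with h' | h'
    · rw [ff_nat_eq_zero h', mul_zero]
    · rw [term_nat_eq_zero h', zero_mul]
  · intro hh; exact absurd (mem_range.2 h) hh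

/-- Summation by parts against a solution of the adjoint recurrence. -/
theorem sum_parts (t : K) (M : ℕ) (g S : ℕ → K)
    (hS : ∀ n, S n = g n - coA t n * S (n + 1) - coB t n * S (n + 2)) :
    ∑ n ∈ range M, g n * mom t M n =
      (∑ i ∈ range M, S (i + 2) * (rising (1 / 2) (i + 1) * ff ((M : K) - 1) i)) *
        ((M : K) ^ 3 * term t M) +
        S 0 * mom t M 0 + S 1 * (mom t M 1 + coA t 0 * mom t M 0) := by
  have key : ∀ L, ∑ n ∈ range L, g n * mom t M n =
      (∑ i ∈ range L, S (i + 2) * (rising (1 / 2) (i + 1) * ff ((M : K) - 1) i)) *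
        ((M : K) ^ 3 * term t M) +
        S 0 * mom t M 0 + S 1 * (mom t M 1 + coA t 0 * mom t M 0)
        - (S L * mom t M L + S (L + 1) * (mom t M (L + 1) + coA t L * mom t M L)) := by
    intro L
    induction L with
    | zero => simp
    | succ L ih =>
      rw [sum_range_succ, sum_range_succ, ih]
      have e1 := gosper t L M
      have e2 := hS L
      linear_combination S (L + 2) * e1 - mom t M L * e2
  rw [key M, mom_eq_zero t le_rfl, mom_eq_zero t (Nat.le_succ M)]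
  ring

/-- Newton expansion of a weighted sum. -/
theorem sum_newton (t : K) (M : ℕ) (c : ℕ → K) :
    ∑ m ∈ range M, term t m * c m =
      ∑ n ∈ range M, ((fwdDiff 1)^[n] c 0 / ((n.factorial : K) * rising (1 / 2) n)) *
        mom t M n := by
  have e : ∀ m ∈ range M, term t m * c m = ∑ n ∈ range M,
      ((fwdDiff 1)^[n] c 0 / (n.factorial : K)) * (term t m * ff (m : K) n) := by
    intro m hm
    have h := shift_eq_sum_fwdDiff_iter (1 : ℕ) c m 0
    simp only [smul_eq_mul, mul_one, zero_add, nsmul_eq_mul] at h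
    rw [h, mul_sum]
    rw [← sum_subset (range_subset_range.2 (Nat.succ_le_of_lt (mem_range.1 hm)))]
    · refine sum_congr rfl fun n _ => ?_
      have h1 : ((n.factorial : K)) ≠ 0 := by exact_mod_cast n.factorial_ne_zero
      rw [ff_nat]; field_simp
    · intro n _ hn
      rw [ff_nat_eq_zero (by simpa using hn)]; simp
  rw [sum_congr rfl e, sum_comm]
  refine sum_congr rfl fun n _ => ?_
  have h1 : ((n.factorial : K)) ≠ 0 := by exact_mod_cast n.factorial_ne_zero
  have h2 := rising_half_ne (K := K) n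
  rw [← mul_sum, mom]
  field_simp

end Pool.Agent.MP_030fd4_nt

end

section

/-! Gauges on commutative rings and their lifts to functions with small forward differences. -/

namespace Pool.Agent.MP_030fd4_nt

/-- An ultrametric size predicate on a commutative ring. -/
structure Gauge (A : Type*) [CommRing A] where
  N : A → ℝ → Prop
  nonneg : ∀ {x C}, N x C → 0 ≤ C
  mono : ∀ {x C D}, N x C → C ≤ D → N x D
  zero : ∀ {C}, 0 ≤ C → N 0 C
  one : N 1 1
  add : ∀ {x y C}, N x C → N y C → N (x + y) C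
  neg : ∀ {x C}, N x C → N (-x) C
  mul : ∀ {x y C D}, N x C → N y D → N (x * y) (C * D)

namespace Gauge

variable {A : Type*} [CommRing A] (G : Gauge A)

theorem sub {x y : A} {C : ℝ} (hx : G.N x C) (hy : G.N y C) : G.N (x - y) C := by
  rw [sub_eq_add_neg]; exact G.add hx (G.neg hy)

theorem mul1 {x y : A} {C : ℝ} (hx : G.N x 1) (hy : G.N y C) : G.N (x * y) C := by
  simpa using G.mul hx hy

theorem mul1' {x y : A} {C : ℝ} (hx : G.N x C) (hy : G.N y 1) : G.N (x * y) C := by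
  simpa using G.mul hx hy

theorem sum {ι : Type*} (s : Finset ι) (f : ι → A) {C : ℝ} (hC : 0 ≤ C)
    (h : ∀ i ∈ s, G.N (f i) C) : G.N (∑ i ∈ s, f i) C := by
  classical
  induction s using Finset.induction_on with
  | empty => simpa using G.zero hC
  | insert a s ha ih =>
    rw [Finset.sum_insert ha]
    exact G.add (h a (Finset.mem_insert_self _ _))
      (ih fun i hi => h i (Finset.mem_insert_of_mem hi))

theorem prod {ι : Type*} (s : Finset ι) (f : ι → A)
    (h : ∀ i ∈ s, G.N (f i) 1) : G.N (∏ i ∈ s, f i) 1 := by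
  classical
  induction s using Finset.induction_on with
  | empty => simpa using G.one
  | insert a s ha ih =>
    rw [Finset.prod_insert ha]
    exact G.mul1 (h a (Finset.mem_insert_self _ _))
      (ih fun i hi => h i (Finset.mem_insert_of_mem hi))

theorem pow {x : A} {C : ℝ} (hx : G.N x C) (n : ℕ) : G.N (x ^ n) (C ^ n) := by
  induction n with
  | zero => simpa using G.one
  | succ n ih => rw [pow_succ, pow_succ]; exact G.mul ih hx

theorem eval₂ {B : Type*} [CommRing B] (φ : B →+* A) (hφ : ∀ b, G.N (φ b) 1) {x : A}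
    (hx : G.N x 1) (P : Polynomial B) : G.N (P.eval₂ φ x) 1 := by
  induction P using Polynomial.induction_on' with
  | add P Q hP hQ => rw [Polynomial.eval₂_add]; exact G.add hP hQ
  | monomial n b =>
    rw [Polynomial.eval₂_monomial]
    exact G.mul1 (hφ b) (by simpa using G.pow hx n)

/-- (1+x)(1+y) - 1 is small when x and y are. -/
theorem one_add_mul {x y : A} {C : ℝ} (hC : C ≤ 1) (hx : G.N (x - 1) C) (hy : G.N (y - 1) C) :
    G.N (x * y - 1) C := by
  have e : x * y - 1 = (x - 1) * (y - 1) + ((x - 1) + (y - 1)) := by ring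
  rw [e]
  exact G.add (G.mul1 (G.mono hx hC) hy) (G.add hx hy)

variable {S : Type*} [AddCommMonoid S] (h : S) (ρ : ℝ)

/-- Bounds for the forward differences up to order I. -/
def T : ℕ → (S → A) → ℝ → Prop
  | 0, f, C => ∀ s, G.N (f s) C
  | I + 1, f, C => (∀ s, G.N (f s) C) ∧ T I (fwdDiff h f) (C * ρ)

variable {G h ρ}

theorem T.pt {I : ℕ} {f : S → A} {C : ℝ} (H : G.T h ρ I f C) (s : S) : G.N (f s) C := by
  cases I with
  | zero => exact H s
  | succ I => exact H.1 s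

theorem T.down {I : ℕ} : ∀ {f : S → A} {C : ℝ}, G.T h ρ (I + 1) f C → G.T h ρ I f C := by
  induction I with
  | zero => intro f C H; exact H.1
  | succ I ih => intro f C H; exact ⟨H.1, ih H.2⟩

theorem T.mono (hρ : 0 ≤ ρ) {I : ℕ} :
    ∀ {f : S → A} {C D : ℝ}, G.T h ρ I f C → C ≤ D → G.T h ρ I f D := by
  induction I with
  | zero => intro f C D H hC s; exact G.mono (H s) hC
  | succ I ih =>
    intro f C D H hC
    exact ⟨fun s => G.mono (H.1 s) hC, ih H.2 (mul_le_mul_of_nonneg_right hC hρ)⟩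

theorem T.const (hρ : 0 ≤ ρ) (I : ℕ) :
    ∀ {x : A} {C : ℝ}, G.N x C → G.T h ρ I (fun _ => x) C := by
  induction I with
  | zero => intro x C H s; exact H
  | succ I ih =>
    intro x C H
    refine ⟨fun _ => H, ?_⟩
    have e : fwdDiff h (fun _ : S => x) = fun _ => 0 := by funext s; simp [fwdDiff]
    rw [e]
    exact ih (G.zero (mul_nonneg (G.nonneg H) hρ))

theorem T.add {I : ℕ} : ∀ {f g : S → A} {C : ℝ}, G.T h ρ I f C → G.T h ρ I g C →
    G.T h ρ I (f + g) C := by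
  induction I with
  | zero => intro f g C H K s; exact G.add (H s) (K s)
  | succ I ih =>
    intro f g C H K
    refine ⟨fun s => G.add (H.1 s) (K.1 s), ?_⟩
    have e : fwdDiff h (f + g) = fwdDiff h f + fwdDiff h g := by
      funext s; simp [fwdDiff]; ring
    rw [e]; exact ih H.2 K.2

theorem T.neg {I : ℕ} : ∀ {f : S → A} {C : ℝ}, G.T h ρ I f C → G.T h ρ I (-f) C := by
  induction I with
  | zero => intro f C H s; exact G.neg (H s)
  | succ I ih =>
    intro f C H
    refine ⟨fun s => G.neg (H.1 s), ?_⟩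
    have e : fwdDiff h (-f) = -fwdDiff h f := by funext s; simp [fwdDiff]; ring
    rw [e]; exact ih H.2

theorem T.shift {I : ℕ} : ∀ {f : S → A} {C : ℝ}, G.T h ρ I f C →
    G.T h ρ I (fun s => f (s + h)) C := by
  induction I with
  | zero => intro f C H s; exact H _
  | succ I ih =>
    intro f C H
    refine ⟨fun s => H.1 _, ?_⟩
    have e : fwdDiff h (fun s => f (s + h)) = fun s => fwdDiff h f (s + h) := by
      funext s; simp [fwdDiff]
    rw [e]; exact ih H.2

theorem T.mul {I : ℕ} : ∀ {f g : S → A} {C D : ℝ}, G.T h ρ I f C → G.T h ρ I g D →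
    G.T h ρ I (f * g) (C * D) := by
  induction I with
  | zero => intro f g C D H K s; exact G.mul (H s) (K s)
  | succ I ih =>
    intro f g C D H K
    refine ⟨fun s => G.mul (H.1 s) (K.1 s), ?_⟩
    have e : fwdDiff h (f * g) = fwdDiff h f * g + (fun s => f (s + h)) * fwdDiff h g := by
      funext s; simp [fwdDiff]; ring
    rw [e]
    refine T.add ?_ ?_
    · have := ih H.2 K.down
      rwa [show C * ρ * D = C * D * ρ by ring] at this
    · have := ih H.down.shift K.2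
      rwa [show C * (D * ρ) = C * D * ρ by ring] at this

theorem T.iter {i : ℕ} : ∀ {f : S → A} {C : ℝ}, G.T h ρ i f C →
    ∀ s, G.N ((fwdDiff h)^[i] f s) (C * ρ ^ i) := by
  induction i with
  | zero => intro f C H s; simpa using H s
  | succ i ih =>
    intro f C H s
    rw [Function.iterate_succ_apply]
    have := ih H.2 s
    rwa [show C * ρ * ρ ^ i = C * ρ ^ (i + 1) by ring] at this

variable (G h ρ)

/-- The lifted gauge on functions. -/
def lift (hρ : 0 ≤ ρ) : Gauge (S → A) where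
  N f C := ∀ I, G.T h ρ I f C
  nonneg H := G.nonneg ((H 0).pt 0)
  mono H hC I := (H I).mono hρ hC
  zero hC I := T.const hρ I (G.zero hC)
  one I := T.const hρ I G.one
  add H K I := (H I).add (K I)
  neg H I := (H I).neg
  mul H K I := (H I).mul (K I)

variable {G h ρ} {hρ : 0 ≤ ρ}

theorem lift_pt {f : S → A} {C : ℝ} (H : (G.lift h ρ hρ).N f C) (s : S) : G.N (f s) C :=
  (H 0).pt s

theorem lift_iter {f : S → A} {C : ℝ} (H : (G.lift h ρ hρ).N f C) (i : ℕ) (s : S) :
    G.N ((fwdDiff h)^[i] f s) (C * ρ ^ i) := (H i).iter s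

theorem lift_const {x : A} {C : ℝ} (H : G.N x C) : (G.lift h ρ hρ).N (fun _ => x) C :=
  fun I => T.const hρ I H

/-- A function with constant increment. -/
theorem lift_lin {f : S → A} {d : A} {C : ℝ} (H : ∀ s, G.N (f s) C) (hd : G.N d (C * ρ))
    (e : ∀ s, f (s + h) = f s + d) : (G.lift h ρ hρ).N f C := by
  intro I
  cases I with
  | zero => exact H
  | succ I =>
    refine ⟨H, ?_⟩
    have e' : fwdDiff h f = fun _ => d := by funext s; simp [fwdDiff, e]
    rw [e']; exact T.const hρ I hd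

/-- A product function whose successive ratios are close to one. -/
theorem lift_prodFun {U q : S → A} (H : ∀ s, G.N (U s) 1)
    (hq : (G.lift h ρ hρ).N (q - 1) ρ) (e : ∀ s, U (s + h) = U s * q s) :
    (G.lift h ρ hρ).N U 1 := by
  intro I
  induction I with
  | zero => exact H
  | succ I ih =>
    refine ⟨H, ?_⟩
    have e' : fwdDiff h U = U * (q - 1) := by funext s; simp [fwdDiff, e]; ring
    rw [e']; exact ih.mul (hq I)

/-- The inverse of a regular unit. -/
theorem lift_inv {f g : S → A} (hf : (G.lift h ρ hρ).N f 1) (H : ∀ s, G.N (g s) 1)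
    (e : ∀ s, f s * g s = 1) : (G.lift h ρ hρ).N g 1 := by
  intro I
  induction I with
  | zero => exact H
  | succ I ih =>
    refine ⟨H, ?_⟩
    have e' : fwdDiff h g = -(g * (fun s => g (s + h)) * fwdDiff h f) := by
      funext s
      have e1 := e s
      have e2 := e (s + h)
      simp only [fwdDiff, Pi.neg_apply, Pi.mul_apply]
      linear_combination g s * e2 - g (s + h) * e1
    rw [e']
    have := ((ih.mul ih.shift).mul (hf (I + 1)).2).neg
    simpa using this

end Gauge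

/-- The norm gauge on an ultrametric field. -/
noncomputable def normGauge (p : ℕ) [Fact p.Prime] : Gauge ℚ_[p] where
  N x C := ‖x‖ ≤ C
  nonneg H := (norm_nonneg _).trans H
  mono H hC := H.trans hC
  zero hC := by simpa using hC
  one := by simp
  add H K := (IsUltrametricDist.norm_add_le_max _ _).trans (max_le H K)
  neg H := by simpa using H
  mul H K := by
    rw [norm_mul]; exact mul_le_mul H K (norm_nonneg _) ((norm_nonneg _).trans H)

end Pool.Agent.MP_030fd4_nt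

end

section

/-! The decaying solution of the adjoint recurrence and its size. -/

namespace Pool.Agent.MP_030fd4_nt

open Finset

variable {p : ℕ} [Fact p.Prime]

/-- Green function of the backward recurrence. -/
noncomputable def green {X : Type*} (A B : ℕ → X → ℚ_[p]) : ℕ → ℕ → X → ℚ_[p]
  | 0, _ => fun _ => 1
  | 1, i => fun x => -A i x
  | d + 2, i => fun x => -A i x * green A B (d + 1) (i + 1) x - B i x * green A B d (i + 2) x

theorem green_norm {X : Type*} {A B : ℕ → X → ℚ_[p]} (nA : ∀ n x, ‖A n x‖ ≤ 1)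
    (nB : ∀ n x, ‖B n x‖ ≤ 1) (x : X) : ∀ d i, ‖green A B d i x‖ ≤ 1 := by
  intro d
  induction d using Nat.twoStepInduction with
  | zero => intro i; simp [green]
  | one => intro i; simpa [green] using nA i x
  | more d h0 h1 =>
    intro i
    exact (normGauge p).sub ((normGauge p).mul1 ((normGauge p).neg (nA i x)) (h1 _))
      ((normGauge p).mul1 (nB i x) (h0 _))

theorem green_cont {X : Type*} [TopologicalSpace X] {A B : ℕ → X → ℚ_[p]}
    (cA : ∀ n, Continuous (A n)) (cB : ∀ n, Continuous (B n)) :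
    ∀ d i, Continuous (green A B d i) := by
  intro d
  induction d using Nat.twoStepInduction with
  | zero => intro i; exact continuous_const
  | one => intro i; exact (cA i).neg
  | more d h0 h1 => intro i; exact ((cA i).neg.mul (h1 _)).sub ((cB i).mul (h0 _))

theorem exists_sol {X : Type*} [TopologicalSpace X] (A B g : ℕ → X → ℚ_[p])
    (cA : ∀ n, Continuous (A n)) (cB : ∀ n, Continuous (B n)) (cg : ∀ n, Continuous (g n))
    (nA : ∀ n x, ‖A n x‖ ≤ 1) (nB : ∀ n x, ‖B n x‖ ≤ 1) (u : ℕ → ℝ) (hu : Summable u)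
    (hg : ∀ n x, ‖g n x‖ ≤ u n) :
    ∃ S : ℕ → X → ℚ_[p], (∀ n, Continuous (S n)) ∧
      (∀ n x, S n x = g n x - A n x * S (n + 1) x - B n x * S (n + 2) x) ∧
      (∀ n x D, (∀ k, n ≤ k → ‖g k x‖ ≤ D) → ‖S n x‖ ≤ D) := by
  have hb : ∀ i d x, ‖green A B d i x * g (d + i) x‖ ≤ u (d + i) := fun i d x =>
    (normGauge p).mul1 (green_norm nA nB x d i) (hg _ x)
  have hu' : ∀ i, Summable fun d => u (d + i) := fun i => (summable_nat_add_iff i).2 hu
  have hs : ∀ i x, Summable fun d => green A B d i x * g (d + i) x := fun i x =>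
    Summable.of_norm_bounded (hu' i) fun d => hb i d x
  refine ⟨fun i x => ∑' d, green A B d i x * g (d + i) x, fun i => ?_, fun i x => ?_,
    fun i x D hD => ?_⟩
  · exact continuous_tsum (fun d => (green_cont cA cB d i).mul (cg _)) (hu' i)
      fun d x => hb i d x
  · have s0 := hs i x
    have s1 := hs (i + 1) x
    have s2 := hs (i + 2) x
    have s0' := (summable_nat_add_iff 1).2 s0
    have s1' := (summable_nat_add_iff 1).2 s1
    simp only
    rw [s0.tsum_eq_zero_add, s0'.tsum_eq_zero_add, s1.tsum_eq_zero_add]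
    have e : ∀ d : ℕ, green A B (d + 1 + 1) i x * g (d + 1 + 1 + i) x =
        -A i x * (green A B (d + 1) (i + 1) x * g (d + 1 + (i + 1)) x)
          - B i x * (green A B d (i + 2) x * g (d + (i + 2)) x) := by
      intro d
      rw [show d + 1 + (i + 1) = d + 1 + 1 + i by ring, show d + (i + 2) = d + 1 + 1 + i by ring]
      simp only [green]; ring
    simp only [e]
    rw [(s1'.mul_left _).tsum_sub (s2.mul_left _), tsum_mul_left, tsum_mul_left]
    simp only [green, zero_add, one_mul]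
    rw [add_comm 1 i]
    ring
  · exact IsUltrametricDist.norm_tsum_le_of_forall_le fun d =>
      (normGauge p).mul1 (green_norm nA nB x d i) (hD _ (by omega))

theorem norm_nat_unit {n : ℕ} (h : ¬ p ∣ n) : ‖(n : ℚ_[p])‖ = 1 := by
  have := Padic.norm_natCast_eq_one_iff (p := p) (n := n)
  rw [this]
  exact (Nat.Prime.coprime_iff_not_dvd Fact.out).2 h

theorem not_dvd_of_lt {n : ℕ} (h0 : 0 < n) (h : n < p) : ¬ p ∣ n :=
  fun hd => absurd (Nat.le_of_dvd h0 hd) (by omega)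

theorem norm_half (hp : 5 ≤ p) : ‖(1 / 2 : ℚ_[p])‖ ≤ 1 := by
  have : ‖((2 : ℕ) : ℚ_[p])‖ = 1 := norm_nat_unit (not_dvd_of_lt (by omega) (by omega))
  rw [norm_div, norm_one]
  push_cast at this
  rw [this]; simp

theorem norm_nat_le (n : ℕ) : ‖(n : ℚ_[p])‖ ≤ 1 := IsUltrametricDist.norm_natCast_le_one _ n

theorem small_of_mul {n : ℕ} (h : ¬ p ∣ n) {x : ℚ_[p]} {D : ℝ} (hx : ‖(n : ℚ_[p]) * x‖ ≤ D) :
    ‖x‖ ≤ D := by
  rwa [norm_mul, norm_nat_unit h, one_mul] at hx

theorem norm_coA (t : ℤ_[p]) (n : ℕ) : ‖coA (t : ℚ_[p]) n‖ ≤ 1 := by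
  have e : coA (t : ℚ_[p]) n =
      ((((2 * n ^ 2 : ℕ) : ℤ_[p]) - t * (t + 1) : ℤ_[p]) : ℚ_[p]) := by
    simp only [coA, PadicInt.coe_sub, PadicInt.coe_natCast]
    push_cast; ring
  rw [e]; exact PadicInt.norm_le_one _

theorem norm_coB (hp : 5 ≤ p) (t : ℤ_[p]) (n : ℕ) : ‖coB (t : ℚ_[p]) n‖ ≤ 1 := by
  have e : ((n : ℚ_[p]) * (n + 1) - t * (t + 1)) =
      (((n : ℤ_[p]) * (n + 1) - t * (t + 1) : ℤ_[p]) : ℚ_[p]) := by simp
  unfold coB
  refine (normGauge p).mul1 ?_ ?_
  · simpa using (normGauge p).pow ((normGauge p).add (norm_half hp) (norm_nat_le n)) 2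
  · rw [e]; exact PadicInt.norm_le_one _

/-- If the coefficient of the first moment vanishes identically, the whole solution is small. -/
theorem finish_even (hp : 5 ≤ p) {D : ℝ} (g S : ℕ → ℤ_[p] → ℚ_[p])
    (hS : ∀ n t, S n t = g n t - coA (t : ℚ_[p]) n * S (n + 1) t - coB (t : ℚ_[p]) n * S (n + 2) t)
    (h4 : ∀ n t, 4 ≤ n → ‖S n t‖ ≤ D)
    (h3 : ∀ t, ‖g 3 (t + 1) - g 3 t‖ ≤ D) (h2 : ∀ t, ‖g 2 (t + 1) - g 2 t‖ ≤ D)
    (h1 : ∀ t, ‖g 1 (t + 1 + 1) - g 1 (t + 1) - (g 1 (t + 1) - g 1 t)‖ ≤ D)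
    (h0 : ∀ t, S 1 t = 0) : ∀ n t, 2 ≤ n → ‖S n t‖ ≤ D := by
  set G := normGauge p with hG
  have hD : 0 ≤ D := (norm_nonneg _).trans (h2 0)
  have a3 : ∀ t, G.N (S 3 t - g 3 t) D := by
    intro t
    rw [hS 3 t, show ∀ a b c : ℚ_[p], a - b - c - a = -b - c by intros; ring]
    exact G.sub (G.neg (G.mul1 (norm_coA t 3) (h4 _ t le_rfl)))
      (G.mul1 (norm_coB hp t 3) (h4 _ t (by omega)))
  have b3 : ∀ t (j : ℕ), G.N (g 3 (t + j) - g 3 t) D := by
    intro t j
    induction j with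
    | zero => simpa using G.zero hD
    | succ j ih =>
      have := G.add (h3 (t + j)) ih
      rwa [sub_add_sub_cancel, add_assoc, ← Nat.cast_succ] at this
  have b2 : ∀ t (j : ℕ), G.N (g 2 (t + j) - g 2 t) D := by
    intro t j
    induction j with
    | zero => simpa using G.zero hD
    | succ j ih =>
      have := G.add (h2 (t + j)) ih
      rwa [sub_add_sub_cancel, add_assoc, ← Nat.cast_succ] at this
  have c3 : ∀ t (j : ℕ), G.N (S 3 (t + j) - g 3 t) D := by
    intro t j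
    have := G.add (a3 (t + j)) (b3 t j)
    rwa [sub_add_sub_cancel] at this
  have c2 : ∀ t (j : ℕ), G.N (S 2 (t + j) - (g 2 t - coA ((t + j : ℤ_[p]) : ℚ_[p]) 2 * g 3 t)) D := by
    intro t j
    rw [hS 2 (t + j), show ∀ a b c d e f : ℚ_[p], a - b * c - d - (e - b * f) =
      (a - e) - b * (c - f) - d by intros; ring]
    exact G.sub (G.sub (b2 t j) (G.mul1 (norm_coA _ 2) (c3 t j)))
      (G.mul1 (norm_coB hp _ 2) (h4 _ _ le_rfl))
  have c1 : ∀ t (j : ℕ), G.N (g 1 (t + j) - (coA ((t + j : ℤ_[p]) : ℚ_[p]) 1 *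
      (g 2 t - coA ((t + j : ℤ_[p]) : ℚ_[p]) 2 * g 3 t) +
        coB ((t + j : ℤ_[p]) : ℚ_[p]) 1 * g 3 t)) D := by
    intro t j
    have e := hS 1 (t + j)
    rw [h0] at e
    have := G.add (G.mul1 (norm_coA (t + (j : ℤ_[p])) 1) (c2 t j)) (G.mul1 (norm_coB hp (t + (j : ℤ_[p])) 1) (c3 t j))
    convert this using 1
    linear_combination -e
  have n2 : G.N (2 : ℚ_[p]) 1 := by
    have := norm_nat_le (p := p) 2
    rwa [Nat.cast_ofNat] at this
  have n4 : G.N (4 : ℚ_[p]) 1 := by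
    have := norm_nat_le (p := p) 4
    rwa [Nat.cast_ofNat] at this
  have n6 : G.N (6 : ℚ_[p]) 1 := by
    have := norm_nat_le (p := p) 6
    rwa [Nat.cast_ofNat] at this
  have hpp : p.Prime := Fact.out
  have d24 : ¬ p ∣ 24 := by
    intro h
    have : p ∣ 4 * (2 * 3) := h
    rcases (Nat.Prime.dvd_mul hpp).1 this with h | h
    · exact not_dvd_of_lt (by omega) (by omega) h
    · rcases (Nat.Prime.dvd_mul hpp).1 h with h | h <;>
        exact not_dvd_of_lt (by omega) (by omega) h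
  have k3 : ∀ t, G.N (g 3 t) D := by
    intro t
    refine small_of_mul d24 ?_
    have E0 := c1 t 0
    have E1 := c1 t 1
    have E2 := c1 t 2
    have E3 := c1 t 3
    have E4 := c1 t 4
    have := G.sub (G.add (G.sub (G.add (G.sub E4 (G.mul1 n4 E3)) (G.mul1 n6 E2)) (G.mul1 n4 E1)) E0)
      (G.add (G.sub (h1 (t + 1 + 1)) (G.mul1 n2 (h1 (t + 1)))) (h1 t))
    change ‖_‖ ≤ D at this
    convert this using 2
    simp only [coA, coB, PadicInt.coe_add, PadicInt.coe_natCast]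
    push_cast
    rw [show t + 1 + 1 + 1 + 1 = t + 4 by ring, show t + 1 + 1 + 1 = t + 3 by ring,
      show t + 1 + 1 = t + 2 by ring, add_zero]
    ring
  have k2 : ∀ t, G.N (g 2 t) D := by
    intro t
    refine small_of_mul (n := 2) (not_dvd_of_lt (by omega) (by omega)) ?_
    have E : ∀ j : ℕ, G.N (g 1 (t + j) - coA ((t + j : ℤ_[p]) : ℚ_[p]) 1 * g 2 t) D := by
      intro j
      have := G.add (c1 t j) (G.sub (G.mul1 (norm_coB hp (t + (j : ℤ_[p])) 1) (k3 t))
        (G.mul1 (norm_coA (t + (j : ℤ_[p])) 1) (G.mul1 (norm_coA (t + (j : ℤ_[p])) 2) (k3 t))))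
      convert this using 1
      ring
    have := G.sub (G.add (G.sub (E 2) (G.mul1 n2 (E 1))) (E 0)) (h1 t)
    change ‖_‖ ≤ D at this
    convert this using 2
    simp only [coA, PadicInt.coe_add, PadicInt.coe_natCast]
    push_cast
    rw [show t + 1 + 1 = t + 2 by ring, add_zero]
    ring
  intro n t hn
  rcases (by omega : n = 2 ∨ n = 3 ∨ 4 ≤ n) with rfl | rfl | h
  · have := G.add (c2 t 0) (G.sub (k2 t) (G.mul1 (norm_coA (t + ((0 : ℕ) : ℤ_[p])) 2) (k3 t)))
    rwa [sub_add_cancel, Nat.cast_zero, add_zero] at this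
  · have := G.add (a3 t) (k3 t)
    rwa [sub_add_cancel] at this
  · exact h4 n t h

end Pool.Agent.MP_030fd4_nt

end

section

/-! Unit parts of blocks of length p and their regularity. -/

namespace Pool.Agent.MP_030fd4_nt

open Finset Polynomial

variable {p : ℕ} [Fact p.Prime]

theorem prod_zmod (y : ZMod p) :
    ∏ i ∈ range p, (X + C (y + (i : ZMod p))) = (X ^ p - X : (ZMod p)[X]) := by
  have hp : p.Prime := Fact.out
  have hc : Fintype.card (ZMod p) = p := ZMod.card p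
  have hr := FiniteField.roots_X_pow_card_sub_X (ZMod p)
  rw [hc] at hr
  have hm : (X ^ p - X : (ZMod p)[X]).Monic :=
    monic_X_pow_sub (by rw [degree_X]; exact_mod_cast hp.one_lt)
  have h := prod_multiset_X_sub_C_of_monic_of_roots_card_eq hm (by
    rw [hr, FiniteField.X_pow_card_sub_X_natDegree_eq _ hp.one_lt]; exact hc)
  rw [← h, hr]
  change _ = ∏ a : ZMod p, (X - C a)
  refine prod_nbij (fun i => -(y + (i : ZMod p))) (fun _ _ => mem_univ _) ?_ ?_ ?_
  · intro i hi j hj hij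
    have : (i : ZMod p) = j := by simpa using hij
    rw [ZMod.natCast_eq_natCast_iff', Nat.mod_eq_of_lt (by simpa using hi),
      Nat.mod_eq_of_lt (by simpa using hj)] at this
    exact this
  · intro a _
    refine ⟨(-a - y).val, by simpa using ZMod.val_lt _, ?_⟩
    simp
  · intro i _; simp [sub_eq_add_neg]

/-- The unit part of a block. -/
noncomputable def upart (y : ℤ_[p]) (i0 : ℕ) : ℤ_[p][X] :=
  ∏ i ∈ (range p).erase i0, (X + C (y + (i : ℤ_[p])))

theorem upart_eq {y : ℤ_[p]} {i0 : ℕ} (h0 : i0 < p) (hd : (p : ℤ_[p]) ∣ y + i0) :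
    ∃ P : ℤ_[p][X], upart y i0 = X ^ (p - 1) - 1 + C (p : ℤ_[p]) * P := by
  have hp : p.Prime := Fact.out
  have hker : ∀ z : ℤ_[p], PadicInt.toZMod z = 0 ↔ (p : ℤ_[p]) ∣ z := by
    intro z
    rw [← RingHom.mem_ker, PadicInt.ker_toZMod, PadicInt.maximalIdeal_eq_span_p,
      Ideal.mem_span_singleton]
  have e1 : (upart y i0).map PadicInt.toZMod = X ^ (p - 1) - 1 := by
    have h := prod_zmod (PadicInt.toZMod y)
    rw [← mul_prod_erase _ _ (mem_range.2 h0)] at h
    have h1 : PadicInt.toZMod y + (i0 : ZMod p) = 0 := by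
      have := (hker _).2 hd
      simpa using this
    rw [h1, C_0, add_zero] at h
    apply mul_left_cancel₀ (X_ne_zero (R := ZMod p))
    have h2 : (X : (ZMod p)[X]) * (X ^ (p - 1) - 1) = X ^ p - X := by
      rw [mul_sub, mul_one, ← pow_succ', Nat.sub_add_cancel hp.one_le]
    rw [h2, ← h]
    simp [upart, Polynomial.map_prod]
  have e2 : C (p : ℤ_[p]) ∣ upart y i0 - (X ^ (p - 1) - 1) := by
    rw [C_dvd_iff_dvd_coeff]
    intro i
    rw [← hker, ← coeff_map, Polynomial.map_sub, e1]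
    simp
  obtain ⟨P, hP⟩ := e2
  exact ⟨P, by linear_combination hP⟩

/-- Functions of a natural and a p-adic variable. -/
abbrev Fn (p : ℕ) [Fact p.Prime] := ℕ → ℤ_[p] → ℚ_[p]

/-- Constants. -/
noncomputable def cst : ℤ_[p] →+* Fn p :=
  (Pi.constRingHom ℕ _).comp ((Pi.constRingHom ℤ_[p] _).comp PadicInt.Coe.ringHom)

@[simp] theorem cst_apply (y : ℤ_[p]) (m : ℕ) (t : ℤ_[p]) : cst y m t = (y : ℚ_[p]) := rfl

/-- A sixth root of 1/p. -/
structure Eps (p : ℕ) where
  e : ℝ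
  pos : 0 < e
  lt : e < 1
  six : e ^ 6 = (p : ℝ)⁻¹

theorem Eps.nonempty : Nonempty (Eps p) := by
  have hp : (1 : ℝ) < p := by exact_mod_cast (Fact.out : p.Prime).one_lt
  have h0 : (0 : ℝ) < (p : ℝ)⁻¹ := by positivity
  refine ⟨⟨(p : ℝ)⁻¹ ^ ((6 : ℕ) : ℝ)⁻¹, Real.rpow_pos_of_pos h0 _, ?_,
    Real.rpow_inv_natCast_pow h0.le (by norm_num)⟩⟩
  exact Real.rpow_lt_one h0.le (inv_lt_one_of_one_lt₀ hp) (by positivity)

theorem Eps.le (E : Eps p) {m n : ℕ} (h : m ≤ n) : E.e ^ n ≤ E.e ^ m :=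
  pow_le_pow_of_le_one E.pos.le E.lt.le h

theorem Eps.le_one (E : Eps p) (n : ℕ) : E.e ^ n ≤ 1 := by simpa using E.le (Nat.zero_le n)

noncomputable def G1 (E : Eps p) : Gauge (ℤ_[p] → ℚ_[p]) :=
  (normGauge p).lift (1 : ℤ_[p]) (E.e ^ 4) (pow_pos E.pos _).le

noncomputable def G2 (E : Eps p) : Gauge (Fn p) :=
  (G1 E).lift (1 : ℕ) (E.e ^ 5) (pow_pos E.pos _).le

variable (E : Eps p)

theorem G2_const {x : ℚ_[p]} {C : ℝ} (h : ‖x‖ ≤ C) : (G2 E).N (fun _ _ => x) C :=
  Gauge.lift_const (Gauge.lift_const (G := normGauge p) h)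

theorem G2_cst (y : ℤ_[p]) : (G2 E).N (cst y) 1 := G2_const E (PadicInt.norm_le_one y)

theorem norm_p_eq : ‖(p : ℚ_[p])‖ = E.e ^ 6 := by rw [Padic.norm_p, E.six]

theorem G2_p : (G2 E).N (cst (p : ℤ_[p])) (E.e ^ 6) :=
  G2_const E (x := ((p : ℤ_[p]) : ℚ_[p])) (by rw [PadicInt.coe_natCast]; exact (norm_p_eq E).le)

theorem G2_pt {f : Fn p} {C : ℝ} (h : (G2 E).N f C) (m : ℕ) (t : ℤ_[p]) : ‖f m t‖ ≤ C :=
  Gauge.lift_pt (G := normGauge p) (Gauge.lift_pt h m) t

/-- The function p m. -/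
noncomputable def fX : Fn p := fun m _ => (p : ℚ_[p]) * m

/-- The function p t. -/
noncomputable def fY : Fn p := fun _ t => (p : ℚ_[p]) * t

theorem G2_X : (G2 E).N fX (E.e ^ 1) := by
  refine Gauge.lift_lin (d := fun _ => (p : ℚ_[p])) (fun m => ?_) ?_ (fun m => ?_)
  · refine Gauge.lift_const (G := normGauge p) ?_
    exact ((normGauge p).mul1' (norm_p_eq E).le (norm_nat_le m)).trans (E.le (by omega))
  · refine Gauge.lift_const (G := normGauge p) ?_
    rw [← pow_add]; exact (norm_p_eq E).le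
  · funext t; simp [fX]; ring

theorem G2_Y : (G2 E).N fY (E.e ^ 2) := by
  refine Gauge.lift_const (x := fun t : ℤ_[p] => (p : ℚ_[p]) * t) ?_
  refine Gauge.lift_lin (d := (p : ℚ_[p])) (fun t => ?_) ?_ (fun m => ?_)
  · exact ((normGauge p).mul1' (norm_p_eq E).le (PadicInt.norm_le_one t)).trans (E.le (by omega))
  · rw [← pow_add]; exact (norm_p_eq E).le
  · simp; ring

theorem G2_inv {f : Fn p} (h : (G2 E).N f 1) (hu : ∀ m t, ‖f m t‖ = 1) :
    (G2 E).N (fun m t => (f m t)⁻¹) 1 := by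
  have hne : ∀ m t, f m t ≠ 0 := fun m t h0 => by simpa [h0] using hu m t
  refine Gauge.lift_inv h (fun m => ?_) (fun m => ?_)
  · refine Gauge.lift_inv (Gauge.lift_pt h m) (fun t => ?_) fun t => mul_inv_cancel₀ (hne m t)
    change ‖_‖ ≤ 1
    rw [norm_inv, hu]; simp
  · funext t; exact mul_inv_cancel₀ (hne m t)

/-- The unit part of a block as a function. -/
noncomputable def fQ (y : ℤ_[p]) (i0 : ℕ) (Z : Fn p) : Fn p := (upart y i0).eval₂ cst Z

theorem fQ_apply (y : ℤ_[p]) (i0 : ℕ) (Z : Fn p) (m : ℕ) (t : ℤ_[p]) :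
    fQ y i0 Z m t = ∏ i ∈ (range p).erase i0, (Z m t + ((y : ℚ_[p]) + i)) := by
  simp [fQ, upart, eval₂_finsetProd, Finset.prod_apply]

theorem norm_lin_unit (m : ℕ) {i : ℕ} (hi : i + 1 < p) :
    ‖(p : ℚ_[p]) * m + (1 + i)‖ = 1 := by
  have : ¬ p ∣ p * m + (1 + i) := by
    rw [Nat.dvd_add_right (dvd_mul_right p m)]
    exact not_dvd_of_lt (by omega) (by omega)
  simpa using norm_nat_unit this

theorem norm_fQ4 (m : ℕ) (t : ℤ_[p]) : ‖fQ 1 (p - 1) fX m t‖ = 1 := by
  rw [fQ_apply, norm_prod]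
  refine prod_eq_one fun i hi => ?_
  have h1 := mem_range.1 (mem_of_mem_erase hi)
  have h2 := ne_of_mem_erase hi
  simpa [fX] using norm_lin_unit (p := p) m (i := i) (by omega)

/-- The inverse of the unit part of the factorial block. -/
noncomputable def fI : Fn p := fun m t => (fQ 1 (p - 1) fX m t)⁻¹

theorem G2_I : (G2 E).N fI 1 :=
  G2_inv E ((G2 E).eval₂ cst (G2_cst E) ((G2 E).mono (G2_X E) (E.le_one _)) _) norm_fQ4

theorem G2_ratio (hp : 5 ≤ p) {y : ℤ_[p]} {i0 : ℕ} (h0 : i0 < p) (hd : (p : ℤ_[p]) ∣ y + i0)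
    {Z : Fn p} (hZ : (G2 E).N Z (E.e ^ 1)) (hZ' : (G2 E).N (Z - fX) (E.e ^ 2)) :
    (G2 E).N (fQ y i0 Z * fI - 1) (E.e ^ 5) := by
  obtain ⟨P, hP⟩ := upart_eq h0 hd
  obtain ⟨P', hP'⟩ := upart_eq (y := (1 : ℤ_[p])) (i0 := p - 1) (by omega)
    ⟨1, by rw [Nat.cast_sub (by omega)]; simp⟩
  have e0 : fQ 1 (p - 1) fX * fI = (1 : Fn p) := by
    funext m t
    refine mul_inv_cancel₀ fun h => ?_
    simpa [h] using norm_fQ4 m t
  have e : fQ y i0 Z * fI - 1 =
      ((∑ i ∈ range (p - 1), Z ^ i * fX ^ (p - 1 - 1 - i)) * (Z - fX) +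
        cst (p : ℤ_[p]) * (P.eval₂ cst Z - P'.eval₂ cst fX)) * fI := by
    rw [geom_sum₂_mul, ← e0]
    simp only [fQ, hP, hP', eval₂_add, eval₂_sub, eval₂_mul, eval₂_C, eval₂_one, eval₂_X_pow]
    ring
  rw [e]
  refine (G2 E).mul1' ((G2 E).add ?_ ?_) (G2_I E)
  · have h3 : (G2 E).N (∑ i ∈ range (p - 1), Z ^ i * fX ^ (p - 1 - 1 - i)) (E.e ^ 3) := by
      refine (G2 E).sum _ _ (pow_pos E.pos _).le fun i hi => ?_
      have := (G2 E).mul ((G2 E).pow hZ i) ((G2 E).pow (G2_X E) (p - 1 - 1 - i))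
      refine (G2 E).mono this ?_
      have hi' := mem_range.1 hi
      rw [← pow_mul, ← pow_mul, ← pow_add]
      exact E.le (by omega)
    have := (G2 E).mul h3 hZ'
    rwa [← pow_add] at this
  · refine (G2 E).mono ((G2 E).mul1' (G2_p E) ((G2 E).sub ?_ ?_)) (E.le (by omega))
    · exact (G2 E).eval₂ cst (G2_cst E) ((G2 E).mono hZ (E.le_one _)) _
    · exact (G2 E).eval₂ cst (G2_cst E) ((G2 E).mono (G2_X E) (E.le_one _)) _

/-- The ratio of unit parts of one block of the term. -/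
noncomputable def fq (hf : ℤ_[p]) (a0 : ℕ) : Fn p :=
  fQ hf (p / 2) fX * fI * (fQ (-(a0 : ℤ_[p])) a0 (fX - fY) * fI) *
    (fQ ((a0 : ℤ_[p]) + 1) (p - 1 - a0) (fX + fY) * fI)

theorem p_odd (hp : 5 ≤ p) : 2 * (p / 2) + 1 = p := by
  have := (Fact.out : p.Prime).eq_two_or_odd
  omega

theorem half_add (hp : 5 ≤ p) {hf : ℤ_[p]} (h2 : 2 * hf = 1) :
    hf + ((p / 2 : ℕ) : ℤ_[p]) = p * hf := by
  have h : ((2 * (p / 2) + 1 : ℕ) : ℤ_[p]) = p := by rw [p_odd hp]
  push_cast at h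
  linear_combination hf * h - ((p / 2 : ℕ) : ℤ_[p]) * h2

theorem G2_q (hp : 5 ≤ p) {hf : ℤ_[p]} (h2 : 2 * hf = 1) {a0 : ℕ} (ha : a0 < p) :
    (G2 E).N (fq hf a0 - 1) (E.e ^ 5) := by
  have hY1 : (G2 E).N fY (E.e ^ 1) := (G2 E).mono (G2_Y E) (E.le (by omega))
  refine (G2 E).one_add_mul (E.le_one _) ((G2 E).one_add_mul (E.le_one _) ?_ ?_) ?_
  · refine G2_ratio E hp (by omega) ⟨hf, half_add hp h2⟩ (G2_X E) ?_
    rw [sub_self]; exact (G2 E).zero (pow_pos E.pos _).le
  · refine G2_ratio E hp ha ⟨0, by simp⟩ ((G2 E).sub (G2_X E) hY1) ?_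
    rw [sub_sub_cancel_left]; exact (G2 E).neg (G2_Y E)
  · refine G2_ratio E hp (by omega) ⟨1, ?_⟩ ((G2 E).add (G2_X E) hY1) ?_
    · rw [Nat.sub_sub, Nat.cast_sub (by omega)]; push_cast; ring
    · rw [add_sub_cancel_left]; exact G2_Y E

/-- The product of the ratios. -/
noncomputable def fU (hf : ℤ_[p]) (a0 : ℕ) : Fn p := fun m => ∏ l ∈ range m, fq hf a0 l

theorem G2_U (hp : 5 ≤ p) {hf : ℤ_[p]} (h2 : 2 * hf = 1) {a0 : ℕ} (ha : a0 < p) :
    (G2 E).N (fU hf a0) 1 := by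
  have hq := G2_q E hp h2 ha
  have hq1 : (G2 E).N (fq hf a0) 1 := by
    have := (G2 E).add ((G2 E).mono hq (E.le_one _)) (G2 E).one
    rwa [sub_add_cancel] at this
  refine Gauge.lift_prodFun (fun m => ?_) hq fun m => prod_range_succ _ _
  exact (G1 E).prod _ _ fun l _ => Gauge.lift_pt hq1 l

/-- One factor of the term inside a block. -/
noncomputable def fw (hf : ℤ_[p]) (a0 i : ℕ) : Fn p :=
  (fX + cst (hf + (i : ℤ_[p]))) * (fX - fY + cst (-(a0 : ℤ_[p]) + (i : ℤ_[p]))) *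
    (fX + fY + cst ((a0 : ℤ_[p]) + 1 + (i : ℤ_[p]))) *
    (fun m t => ((fX + cst (1 + (i : ℤ_[p])) : Fn p) m t)⁻¹ : Fn p) ^ 3

theorem fw_apply (hf : ℤ_[p]) (a0 i m : ℕ) (t : ℤ_[p]) : fw hf a0 i m t =
    ((p : ℚ_[p]) * m + (hf + i)) * (p * m - p * t + (-a0 + i)) * (p * m + p * t + (a0 + 1 + i)) *
      ((p : ℚ_[p]) * m + (1 + i))⁻¹ ^ 3 := by
  simp [fw, fX, fY]

theorem G2_w (hf : ℤ_[p]) (a0 : ℕ) {i : ℕ} (hi : i + 1 < p) : (G2 E).N (fw hf a0 i) 1 := by
  have hX : (G2 E).N fX 1 := (G2 E).mono (G2_X E) (E.le_one _)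
  have hY : (G2 E).N fY 1 := (G2 E).mono (G2_Y E) (E.le_one _)
  refine (G2 E).mul1 ((G2 E).mul1 ((G2 E).mul1 ((G2 E).add hX (G2_cst E _))
    ((G2 E).add ((G2 E).sub hX hY) (G2_cst E _))) ((G2 E).add ((G2 E).add hX hY) (G2_cst E _))) ?_
  have := (G2 E).pow (G2_inv E ((G2 E).add hX (G2_cst E (1 + (i : ℤ_[p])))) fun m t => by
    simpa [fX] using norm_lin_unit (p := p) m hi) 3
  simpa using this

/-- The initial part of a block. -/
noncomputable def fV (hf : ℤ_[p]) (a0 j : ℕ) : Fn p := ∏ i ∈ range j, fw hf a0 i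

theorem G2_V (hf : ℤ_[p]) (a0 : ℕ) {j : ℕ} (hj : j < p) : (G2 E).N (fV hf a0 j) 1 :=
  (G2 E).prod _ _ fun i hi => G2_w E hf a0 (by have := mem_range.1 hi; omega)

theorem cont_coe : Continuous fun t : ℤ_[p] => (t : ℚ_[p]) := continuous_subtype_val

theorem cont_U (hf : ℤ_[p]) (a0 m : ℕ) : Continuous (fU hf a0 m) := by
  have e : fU hf a0 m = fun t => ∏ l ∈ range m, fq hf a0 l t := by
    funext t; simp [fU, Finset.prod_apply]
  rw [e]
  refine continuous_finsetProd _ fun l _ => ?_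
  have hI : Continuous (fI (p := p) l) := by
    have : fI (p := p) l = fun _ => fI (p := p) l 0 := by
      funext t; simp [fI, fQ_apply, fX]
    rw [this]; exact continuous_const
  have hQ : ∀ (y : ℤ_[p]) (i0 : ℕ) (Z : Fn p), Continuous (Z l) → Continuous (fQ y i0 Z l) := by
    intro y i0 Z hZ
    have : fQ y i0 Z l = fun t => ∏ i ∈ (range p).erase i0, (Z l t + ((y : ℚ_[p]) + i)) := by
      funext t; exact fQ_apply _ _ _ _ _
    rw [this]
    exact continuous_finsetProd _ fun i _ => hZ.add continuous_const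
  have hX : Continuous (fX (p := p) l) := continuous_const
  have hY : Continuous (fY (p := p) l) :=
    (continuous_const (y := (p : ℚ_[p]))).mul cont_coe
  exact (((hQ _ _ _ hX).mul hI).mul ((hQ _ _ (fX - fY) (hX.sub hY)).mul hI)).mul
    ((hQ _ _ (fX + fY) (hX.add hY)).mul hI)

theorem cont_V (hf : ℤ_[p]) (a0 j m : ℕ) : Continuous (fV hf a0 j m) := by
  have e : fV hf a0 j m = fun t => ∏ i ∈ range j, fw hf a0 i m t := by
    funext t; simp [fV, Finset.prod_apply]
  rw [e]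
  refine continuous_finsetProd _ fun i _ => ?_
  have hY := cont_coe (p := p)
  rw [show fw hf a0 i m = _ from funext fun t => fw_apply hf a0 i m t]
  fun_prop

end Pool.Agent.MP_030fd4_nt

end

section

/-! Block decomposition of the term and the structure theorem. -/

namespace Pool.Agent.MP_030fd4_nt

open Finset

variable {p : ℕ} [Fact p.Prime]

theorem coe_half {hf : ℤ_[p]} (h2 : 2 * hf = 1) : (hf : ℚ_[p]) = 1 / 2 := by
  have h : (((2 : ℕ) * hf : ℤ_[p]) : ℚ_[p]) = 1 := by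
    rw [Nat.cast_ofNat, h2]; rfl
  rw [PadicInt.coe_mul, PadicInt.coe_natCast] at h
  push_cast at h
  linear_combination h / 2

theorem term_inblock {hf : ℤ_[p]} (h2 : 2 * hf = 1) (a0 m : ℕ) (t : ℤ_[p]) (j : ℕ) :
    term ((a0 : ℚ_[p]) + p * t) (p * m + j) =
      term ((a0 : ℚ_[p]) + p * t) (p * m) * fV hf a0 j m t := by
  induction j with
  | zero => simp [fV]
  | succ j ih =>
    rw [← add_assoc, term_succ, ih]
    simp only [fV, prod_range_succ, Pi.mul_apply, fw_apply, coe_half h2]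
    push_cast
    rw [div_eq_mul_inv, ← inv_pow, show (p : ℚ_[p]) * m + j + 1 = p * m + (1 + j) by ring]
    ring

theorem prod_split (y : ℤ_[p]) {i0 : ℕ} (h0 : i0 < p) (Z : Fn p) (m : ℕ) (t : ℤ_[p]) :
    ∏ i ∈ range p, (Z m t + ((y : ℚ_[p]) + i)) = (Z m t + ((y : ℚ_[p]) + i0)) * fQ y i0 Z m t := by
  rw [fQ_apply, mul_prod_erase _ (fun i : ℕ => Z m t + ((y : ℚ_[p]) + i)) (mem_range.2 h0)]

theorem fV_full (hp : 5 ≤ p) {hf : ℤ_[p]} (h2 : 2 * hf = 1) {a0 : ℕ} (ha : a0 < p) (m : ℕ)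
    (t : ℤ_[p]) : fV hf a0 p m t =
      ((1 / 2 + m) * (-(t : ℚ_[p]) + m) * (t + 1 + m) / ((m : ℚ_[p]) + 1) ^ 3) * fq hf a0 m t := by
  have e1 := prod_split hf (i0 := p / 2) (by omega) fX m t
  have e2 := prod_split (-(a0 : ℤ_[p])) ha (fX - fY) m t
  have e3 := prod_split ((a0 : ℤ_[p]) + 1) (i0 := p - 1 - a0) (by omega) (fX + fY) m t
  have e4 := prod_split (1 : ℤ_[p]) (i0 := p - 1) (by omega) fX m t
  have hh : (hf : ℚ_[p]) + ((p / 2 : ℕ) : ℚ_[p]) = p * (1 / 2) := by
    have := congrArg (fun z : ℤ_[p] => (z : ℚ_[p])) (half_add hp h2)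
    simp only [PadicInt.coe_add, PadicInt.coe_mul, PadicInt.coe_natCast] at this
    rw [this, coe_half h2]
  have c3 : ((p - 1 - a0 : ℕ) : ℚ_[p]) = p - 1 - a0 := by
    rw [Nat.sub_sub, Nat.cast_sub (by omega)]; push_cast; ring
  have c4 : ((p - 1 : ℕ) : ℚ_[p]) = p - 1 := by rw [Nat.cast_sub (by omega)]; simp
  rw [hh] at e1
  rw [c3] at e3
  rw [c4] at e4
  simp only [fX, fY, Pi.add_apply, Pi.sub_apply, PadicInt.coe_neg, PadicInt.coe_add,
    PadicInt.coe_natCast, PadicInt.coe_one] at e1 e2 e3 e4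
  have e : fV hf a0 p m t = ∏ i ∈ range p, fw hf a0 i m t := by simp [fV, Finset.prod_apply]
  simp only [e, fw_apply, prod_mul_distrib, prod_pow, prod_inv_distrib]
  rw [e1, e2, e3, e4]
  have hq : fQ 1 (p - 1) fX m t ≠ 0 := fun h => by simpa [h] using norm_fQ4 m t
  have hp0 : (p : ℚ_[p]) ≠ 0 := by exact_mod_cast (by omega : p ≠ 0)
  have hm := natCast_add_one_ne (K := ℚ_[p]) m
  simp only [fq, fI, Pi.mul_apply]
  rw [show (p : ℚ_[p]) * m + (1 + (p - 1)) = p * (m + 1) by ring]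
  field_simp
  ring

theorem term_block (hp : 5 ≤ p) {hf : ℤ_[p]} (h2 : 2 * hf = 1) {a0 : ℕ} (ha : a0 < p)
    (t : ℤ_[p]) (m : ℕ) :
    term ((a0 : ℚ_[p]) + p * t) (p * m) = term (t : ℚ_[p]) m * fU hf a0 m t := by
  induction m with
  | zero => simp [term_zero, fU]
  | succ m ih =>
    rw [mul_add, mul_one, term_inblock h2, ih, fV_full hp h2 ha, term_succ]
    simp only [fU, prod_range_succ, Pi.mul_apply]
    ring

theorem sum_blocks {K : Type*} [AddCommMonoid K] (F : ℕ → K) (q M : ℕ) :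
    ∑ k ∈ range (q * M), F k = ∑ m ∈ range M, ∑ j ∈ range q, F (q * m + j) := by
  induction M with
  | zero => simp
  | succ M ih => rw [mul_add, mul_one, sum_range_add, ih, sum_range_succ]

/-- The block sums. -/
noncomputable def fc (hf : ℤ_[p]) (a0 : ℕ) : Fn p := fU hf a0 * ∑ j ∈ range p, fV hf a0 j

theorem trunc_blocks (hp : 5 ≤ p) {hf : ℤ_[p]} (h2 : 2 * hf = 1) {a0 : ℕ} (ha : a0 < p)
    (t : ℤ_[p]) (M : ℕ) : trunc ((a0 : ℚ_[p]) + p * t) (p * M) =
      ∑ m ∈ range M, term (t : ℚ_[p]) m * fc hf a0 m t := by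
  rw [trunc, sum_blocks]
  refine sum_congr rfl fun m _ => ?_
  simp only [fc, Pi.mul_apply, Finset.sum_apply, mul_sum]
  refine sum_congr rfl fun j _ => ?_
  rw [term_inblock h2, term_block hp h2 ha, mul_assoc]

theorem G2_c (E : Eps p) (hp : 5 ≤ p) {hf : ℤ_[p]} (h2 : 2 * hf = 1) {a0 : ℕ} (ha : a0 < p) :
    (G2 E).N (fc hf a0) 1 :=
  (G2 E).mul1 (G2_U E hp h2 ha)
    ((G2 E).sum _ _ zero_le_one fun _ hj => G2_V E hf a0 (mem_range.1 hj))

theorem cont_c (hf : ℤ_[p]) (a0 m : ℕ) : Continuous (fc hf a0 m) := by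
  have e : fc hf a0 m = fun t => fU hf a0 m t * ∑ j ∈ range p, fV hf a0 j m t := by
    funext t; simp [fc, Finset.sum_apply]
  rw [e]
  exact (cont_U hf a0 m).mul (continuous_finsetSum _ fun j _ => cont_V hf a0 j m)

theorem iter_apply (c : Fn p) (n m : ℕ) (t : ℤ_[p]) :
    (fwdDiff 1)^[n] c m t = (fwdDiff 1)^[n] (fun m => c m t) m := by
  simp [fwdDiff_iter_eq_sum_shift, Finset.sum_apply]

theorem fact_rising {K : Type*} [Field K] [CharZero K] (n : ℕ) :
    (n.factorial : K) * rising (1 / 2) n * 4 ^ n = ((2 * n).factorial : K) := by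
  induction n with
  | zero => simp [rising]
  | succ n ih =>
    rw [show 2 * (n + 1) = 2 * n + 1 + 1 by ring, Nat.factorial_succ, Nat.factorial_succ,
      Nat.factorial_succ, rising_succ]
    push_cast
    rw [← ih]; ring

theorem norm_den (E : Eps p) (hp : 5 ≤ p) (n : ℕ) : ∃ v : ℕ, (n = 0 → v = 0) ∧ 4 * v ≤ 2 * n - 1 ∧
    ‖(n.factorial : ℚ_[p]) * rising (1 / 2) n‖ = E.e ^ (6 * v) := by
  refine ⟨padicValNat p (2 * n).factorial, by rintro rfl; simp, ?_, ?_⟩
  · rcases Nat.eq_zero_or_pos n with rfl | h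
    · simp
    · have := sub_one_mul_padicValNat_factorial_lt_of_ne_zero p (n := 2 * n) (by omega)
      have h4 : 4 * padicValNat p (2 * n).factorial ≤ (p - 1) * padicValNat p (2 * n).factorial :=
        Nat.mul_le_mul_right _ (by omega)
      omega
  · have h4 : ‖(4 : ℚ_[p])‖ = 1 := by
      simpa using norm_nat_unit (p := p) (n := 4) (not_dvd_of_lt (by omega) (by omega))
    have := congrArg norm (fact_rising (K := ℚ_[p]) n)
    rw [norm_mul, norm_pow, h4, one_pow, mul_one] at this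
    rw [this, Padic.norm_eq_zpow_neg_valuation (by exact_mod_cast Nat.factorial_ne_zero _),
      Padic.valuation_natCast, pow_mul, E.six, zpow_neg, zpow_natCast, inv_pow]

/-- The normalised Newton coefficients. -/
noncomputable def gco (c : Fn p) (n : ℕ) (t : ℤ_[p]) : ℚ_[p] :=
  (fwdDiff 1)^[n] c 0 t / ((n.factorial : ℚ_[p]) * rising (1 / 2) n)

theorem gco_bound (E : Eps p) (hp : 5 ≤ p) {c : Fn p} (hc : (G2 E).N c 1) (n j k : ℕ)
    (hk : ∀ v, (n = 0 → v = 0) → 4 * v ≤ 2 * n - 1 → k + 6 * v ≤ 5 * n + 4 * j) (t : ℤ_[p]) :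
    ‖(fwdDiff 1)^[j] (gco c n) t‖ ≤ E.e ^ k := by
  obtain ⟨v, h0, hv, e⟩ := norm_den E hp n
  have h1 : ‖(fwdDiff 1)^[j] ((fwdDiff 1)^[n] c 0) t‖ ≤ 1 * (E.e ^ 5) ^ n * (E.e ^ 4) ^ j :=
    Gauge.lift_iter (G := normGauge p) (Gauge.lift_iter hc n 0) j t
  have e2 : (fwdDiff 1)^[j] (gco c n) t =
      (fwdDiff 1)^[j] ((fwdDiff 1)^[n] c 0) t / ((n.factorial : ℚ_[p]) * rising (1 / 2) n) := by
    rw [fwdDiff_iter_eq_sum_shift, fwdDiff_iter_eq_sum_shift, sum_div]
    refine sum_congr rfl fun i _ => ?_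
    simp only [gco, zsmul_eq_mul]; ring
  rw [e2, norm_div, e, div_le_iff₀ (pow_pos E.pos _), ← pow_add]
  rw [one_mul, ← pow_mul, ← pow_mul, ← pow_add] at h1
  exact h1.trans (E.le (hk v h0 hv))

theorem gco_cont {c : Fn p} (hc : ∀ m, Continuous (c m)) (n : ℕ) : Continuous (gco c n) := by
  have e : gco c n = fun t => (∑ k ∈ range (n + 1), ((-1 : ℤ) ^ (n - k) * n.choose k) • c k t) /
      ((n.factorial : ℚ_[p]) * rising (1 / 2) n) := by
    funext t; simp [gco, fwdDiff_iter_eq_sum_shift, Finset.sum_apply]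
  rw [e]
  refine (continuous_finsetSum _ fun k _ => ?_).div_const _
  simp only [zsmul_eq_mul]
  exact continuous_const.mul (hc k)

/-- The structure theorem for weighted sums with a regular weight. -/
theorem structure_thm (E : Eps p) (hp : 5 ≤ p) {c : Fn p} (hc : (G2 E).N c 1)
    (cc : ∀ m, Continuous (c m)) :
    ∃ S : ℕ → ℤ_[p] → ℚ_[p], (∀ n, Continuous (S n)) ∧
      (∀ n t, S n t = gco c n t - coA (t : ℚ_[p]) n * S (n + 1) t -
        coB (t : ℚ_[p]) n * S (n + 2) t) ∧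
      (∀ n t, 4 ≤ n → ‖S n t‖ ≤ E.e ^ 13) ∧
      (∀ (t : ℤ_[p]) (M : ℕ), ∑ m ∈ range M, term (t : ℚ_[p]) m * c m t =
        (∑ i ∈ range M, S (i + 2) t * (rising (1 / 2) (i + 1) * ff ((M : ℚ_[p]) - 1) i)) *
          ((M : ℚ_[p]) ^ 3 * term (t : ℚ_[p]) M) + S 0 t * mom (t : ℚ_[p]) M 0 +
          S 1 t * (mom (t : ℚ_[p]) M 1 + coA (t : ℚ_[p]) 0 * mom (t : ℚ_[p]) M 0)) := by
  have hY := cont_coe (p := p)
  obtain ⟨S, hS1, hS2, hS3⟩ := exists_sol (fun n (t : ℤ_[p]) => coA (t : ℚ_[p]) n)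
    (fun n (t : ℤ_[p]) => coB (t : ℚ_[p]) n) (gco c)
    (fun n => by unfold coA; fun_prop) (fun n => by unfold coB; fun_prop) (gco_cont cc)
    (fun n t => norm_coA t n) (fun n t => norm_coB hp t n) (fun n => E.e ^ n)
    (summable_geometric_of_lt_one E.pos.le E.lt)
    (fun n t => gco_bound E hp hc n 0 n (fun v h0 hv => by omega) t)
  refine ⟨S, hS1, hS2, fun n t hn => hS3 n t _ fun k hk =>
    gco_bound E hp hc k 0 13 (fun v h0 hv => by omega) t, fun t M => ?_⟩
  rw [sum_newton, ← sum_parts (t : ℚ_[p]) M (fun n => gco c n t) (fun n => S n t)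
    fun n => hS2 n t]
  refine sum_congr rfl fun n _ => ?_
  rw [gco, iter_apply]

theorem norm_rising_half (hp : 5 ≤ p) (n : ℕ) : ‖rising (1 / 2 : ℚ_[p]) n‖ ≤ 1 :=
  (normGauge p).prod _ _ fun i _ => (normGauge p).add (norm_half hp) (norm_nat_le i)

theorem norm_ff (M i : ℕ) : ‖ff ((M : ℚ_[p]) - 1) i‖ ≤ 1 :=
  (normGauge p).prod _ _ fun l _ =>
    (normGauge p).sub ((normGauge p).sub (norm_nat_le M) (normGauge p).one) (norm_nat_le l)

theorem exists_cube (E : Eps p) {x : ℚ_[p]} (hx : ‖x‖ ≤ E.e ^ 13) :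
    ∃ R : ℤ_[p], x = (p : ℚ_[p]) ^ 3 * R := by
  have hp0 : (p : ℚ_[p]) ≠ 0 := by exact_mod_cast (Fact.out : p.Prime).ne_zero
  have h1 : ‖x‖ ≤ (p : ℝ) ^ (-3 : ℤ) := by
    rw [Padic.norm_le_pow_iff_norm_lt_pow_add_one]
    refine hx.trans_lt ?_
    have : (p : ℝ) ^ (-3 + 1 : ℤ) = E.e ^ 12 := by
      rw [show 12 = 6 * 2 by rfl, pow_mul, E.six, inv_pow]
      norm_num [zpow_neg, zpow_ofNat]
    rw [this]
    exact pow_lt_pow_right_of_lt_one₀ E.pos E.lt (by omega)
  refine ⟨⟨x / (p : ℚ_[p]) ^ 3, ?_⟩, ?_⟩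
  · rw [norm_div, Padic.norm_p_pow, div_le_one (zpow_pos (by
      exact_mod_cast (Fact.out : p.Prime).pos) _)]
    exact h1
  · change x = _ * (x / _)
    field_simp

/-- The case where the first moment does not occur. -/
theorem structure_even (hp : 5 ≤ p) {c : Fn p} (hc : ∀ E : Eps p, (G2 E).N c 1)
    (cc : ∀ m, Continuous (c m))
    (hodd : ∀ n : ℕ, ∃ M, 2 * n + 1 < M ∧
      ∑ m ∈ range M, term ((2 * n + 1 : ℕ) : ℚ_[p]) m * c m ((2 * n + 1 : ℕ) : ℤ_[p]) = 0) :
    ∃ β : ℤ_[p] → ℚ_[p], Continuous β ∧ ∀ (t : ℤ_[p]) (M : ℕ), ∃ R : ℤ_[p],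
      ∑ m ∈ range M, term (t : ℚ_[p]) m * c m t - β t * trunc (t : ℚ_[p]) M =
        (p : ℚ_[p]) ^ 3 * (M : ℚ_[p]) ^ 3 * term (t : ℚ_[p]) M * R := by
  obtain ⟨E⟩ := Eps.nonempty (p := p)
  obtain ⟨S, hS1, hS2, hS3, hS4⟩ := structure_thm E hp (hc E) cc
  have h2u : IsUnit (2 : ℤ_[p]) := by
    rw [PadicInt.isUnit_iff]
    have := norm_nat_unit (p := p) (n := 2) (not_dvd_of_lt (by omega) (by omega))
    rw [← PadicInt.coe_natCast] at this
    simpa using this
  have h0 : ∀ t, S 1 t = 0 := by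
    intro t
    obtain ⟨s, rfl⟩ : ∃ s, t = 2 * s + 1 := by
      obtain ⟨s, hs⟩ := h2u.dvd (a := t - 1)
      exact ⟨s, by linear_combination hs⟩
    refine PadicInt.denseRange_natCast.induction_on s (p := fun s => S 1 (2 * s + 1) = 0)
      (isClosed_eq ((hS1 1).comp (by fun_prop)) continuous_const) fun n => ?_
    obtain ⟨M, hM, e⟩ := hodd n
    have e4 := hS4 ((2 * n + 1 : ℕ) : ℤ_[p]) M
    rw [PadicInt.coe_natCast, e, term_nat_eq_zero hM] at e4
    have m0 : mom ((2 * n + 1 : ℕ) : ℚ_[p]) M 0 = 0 := by rw [mom_zero, trunc_odd n M hM]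
    have m1 := mom_one_ne hM m0
    rw [m0] at e4
    have : S 1 ((2 * n + 1 : ℕ) : ℤ_[p]) * mom ((2 * n + 1 : ℕ) : ℚ_[p]) M 1 = 0 := by
      linear_combination -e4
    have := (mul_eq_zero.1 this).resolve_right m1
    simpa using this
  have hsm := finish_even hp (gco c) S hS2 hS3
    (fun t => gco_bound E hp (hc E) 3 1 13 (fun v _ hv => by omega) t)
    (fun t => gco_bound E hp (hc E) 2 1 13 (fun v _ hv => by omega) t)
    (fun t => gco_bound E hp (hc E) 1 2 13 (fun v _ hv => by omega) t) h0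
  refine ⟨S 0, hS1 0, fun t M => ?_⟩
  obtain ⟨R, hR⟩ := exists_cube E (x := ∑ i ∈ range M, S (i + 2) t *
      (rising (1 / 2) (i + 1) * ff ((M : ℚ_[p]) - 1) i))
    ((normGauge p).sum _ _ (pow_pos E.pos _).le fun i _ => (normGauge p).mul1'
      (hsm (i + 2) t (by omega)) ((normGauge p).mul1 (norm_rising_half hp _) (norm_ff M i)))
  refine ⟨R, ?_⟩
  rw [hS4, hR, h0, mom_zero]
  ring

end Pool.Agent.MP_030fd4_nt

end

section

/-! Basic properties of Morita's Gamma function. -/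

namespace Pool.Agent.MP_030fd4_nt

open Finset Filter Topology

variable {p : ℕ} [Fact p.Prime]

theorem gammaNat_succ (p n : ℕ) :
    gammaNat p (n + 1) = (if p ∣ n then -1 else -(n : ℤ)) * gammaNat p n := by
  unfold gammaNat
  rw [range_add_one, filter_insert]
  split_ifs with h
  · simp [pow_succ]
  · rw [prod_insert (by simp)]; ring

theorem gammaNat_zero (p : ℕ) : gammaNat p 0 = 1 := by simp [gammaNat]

theorem prod_units_zmod (hp : 5 ≤ p) {k : ℕ} (hk : k ≠ 0) :
    ∏ j ∈ (range (p ^ k)).filter (fun j => ¬ p ∣ j), (j : ZMod (p ^ k)) = -1 := by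
  classical
  have hpp : p.Prime := Fact.out
  have : NeZero (p ^ k) := ⟨pow_ne_zero _ hpp.ne_zero⟩
  have hsq : ∀ a : (ZMod (p ^ k))ˣ, a⁻¹ = a → a = 1 ∨ a = -1 := by
    intro a ha
    have h1 : (a : ZMod (p ^ k)) * a = 1 := by
      rw [← Units.val_mul]; nth_rewrite 1 [← ha]; simp
    obtain ⟨z, hz⟩ := ZMod.intCast_surjective (a : ZMod (p ^ k))
    have h2 : ((p ^ k : ℕ) : ℤ) ∣ (z - 1) * (z + 1) := by
      rw [← ZMod.intCast_zmod_eq_zero_iff_dvd]
      push_cast
      rw [hz]; linear_combination h1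
    have hpz : Prime (p : ℤ) := Nat.prime_iff_prime_int.1 hpp
    push_cast at h2
    by_cases h3 : (p : ℤ) ∣ z + 1
    · right
      have h4 : ¬ (p : ℤ) ∣ z - 1 := by
        intro h4
        have h5 : (p : ℤ) ∣ ((2 : ℕ) : ℤ) := by
          have := dvd_sub h3 h4
          rwa [show z + 1 - (z - 1) = ((2 : ℕ) : ℤ) by push_cast; ring] at this
        exact not_dvd_of_lt (by omega) (by omega) (Int.natCast_dvd_natCast.1 h5)
      have h6 := hpz.pow_dvd_of_dvd_mul_left k h4 h2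
      apply Units.ext
      have : ((z + 1 : ℤ) : ZMod (p ^ k)) = 0 := by
        rw [ZMod.intCast_zmod_eq_zero_iff_dvd]; exact_mod_cast h6
      push_cast at this
      rw [Units.val_neg, Units.val_one, ← hz]; linear_combination this
    · left
      have h6 := hpz.pow_dvd_of_dvd_mul_right k h3 h2
      apply Units.ext
      have : ((z - 1 : ℤ) : ZMod (p ^ k)) = 0 := by
        rw [ZMod.intCast_zmod_eq_zero_iff_dvd]; exact_mod_cast h6
      push_cast at this
      rw [Units.val_one, ← hz]; linear_combination this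
  have hall : ∏ x : (ZMod (p ^ k))ˣ, x = -1 := by
    have : (∏ x ∈ (univ : Finset (ZMod (p ^ k))ˣ).erase (-1), x) = 1 := by
      refine prod_involution (fun x _ => x⁻¹) (by simp) (fun a ha h1 h2 => ?_)
        (fun a => by simp [@inv_eq_iff_eq_inv _ _ a]) (by simp)
      rcases hsq a h2 with h | h
      · exact h1 h
      · exact (ne_of_mem_erase ha) h
    rw [← insert_erase (mem_univ (-1 : (ZMod (p ^ k))ˣ)), prod_insert (notMem_erase _ _), this,
      mul_one]
  have := congrArg (fun x : (ZMod (p ^ k))ˣ => (x : ZMod (p ^ k))) hall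
  simp only [Units.coe_prod, Units.val_neg, Units.val_one] at this
  rw [← this]
  symm
  refine prod_nbij (fun x => (x : ZMod (p ^ k)).val) (fun x _ => ?_) ?_ ?_ (fun x _ => by simp)
  · refine mem_filter.2 ⟨mem_range.2 (ZMod.val_lt _), fun h => ?_⟩
    have hc := ZMod.val_coe_unit_coprime x
    have := Nat.dvd_gcd h (dvd_pow_self p hk)
    rw [hc] at this
    exact hpp.one_lt.ne' (Nat.dvd_one.1 this)
  · intro x _ y _ h
    exact Units.ext (ZMod.val_injective _ h)
  · intro j hj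
    obtain ⟨h1, h2⟩ := mem_filter.1 (mem_coe.1 hj)
    have hc : j.Coprime (p ^ k) := ((Nat.Prime.coprime_iff_not_dvd hpp).2 h2).symm.pow_right k
    refine ⟨ZMod.unitOfCoprime j hc, by simp, ?_⟩
    simp [ZMod.val_natCast, Nat.mod_eq_of_lt (mem_range.1 h1)]

theorem gammaNat_period (hp : 5 ≤ p) {k : ℕ} (hk : k ≠ 0) (n : ℕ) :
    (gammaNat p (n + p ^ k) : ZMod (p ^ k)) = gammaNat p n := by
  induction n with
  | zero =>
    have ho : Odd (p ^ k) := Odd.pow ⟨p / 2, (p_odd hp).symm⟩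
    rw [zero_add, gammaNat_zero, gammaNat]
    push_cast
    rw [prod_units_zmod hp hk, ho.neg_one_pow]; simp
  | succ n ih =>
    rw [add_right_comm, gammaNat_succ, gammaNat_succ]
    have h : p ∣ n + p ^ k ↔ p ∣ n := (Nat.dvd_add_iff_left (dvd_pow_self p hk)).symm
    have h0 : ((p : ZMod (p ^ k))) ^ k = 0 := by exact_mod_cast ZMod.natCast_self (p ^ k)
    simp only [h]
    push_cast
    rw [ih]
    split_ifs <;> simp [h0]

theorem gammaNat_mod (hp : 5 ≤ p) {k : ℕ} (hk : k ≠ 0) (n : ℕ) :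
    (gammaNat p n : ZMod (p ^ k)) = gammaNat p (n % p ^ k) := by
  have : ∀ i r, (gammaNat p (r + p ^ k * i) : ZMod (p ^ k)) = gammaNat p r := by
    intro i r
    induction i with
    | zero => simp
    | succ i ih => rw [mul_add, mul_one, ← add_assoc, gammaNat_period hp hk, ih]
  conv_lhs => rw [← Nat.mod_add_div n (p ^ k)]
  exact this _ _

theorem gammaNat_close (hp : 5 ≤ p) (k n m : ℕ)
    (h : ‖(n : ℤ_[p]) - m‖ ≤ (p : ℝ) ^ (-k : ℤ)) :
    ‖(gammaNat p n : ℤ_[p]) - gammaNat p m‖ ≤ (p : ℝ) ^ (-k : ℤ) := by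
  rcases Nat.eq_zero_or_pos k with rfl | hk
  · simpa using PadicInt.norm_le_one _
  have h1 : ((p : ℤ) ^ k) ∣ (n : ℤ) - m := by
    rw [← PadicInt.norm_int_le_pow_iff_dvd]; push_cast; exact h
  have h2 : m % p ^ k = n % p ^ k := (Nat.modEq_iff_dvd).2 (by exact_mod_cast h1)
  have h3 : ((gammaNat p n - gammaNat p m : ℤ) : ZMod (p ^ k)) = 0 := by
    push_cast
    rw [gammaNat_mod hp hk.ne' n, gammaNat_mod hp hk.ne' m, h2, sub_self]
  rw [ZMod.intCast_zmod_eq_zero_iff_dvd] at h3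
  have := (PadicInt.norm_int_le_pow_iff_dvd (p := p)).2 (by exact_mod_cast h3)
  exact_mod_cast this

theorem norm_sub_appr (x : ℤ_[p]) {k j : ℕ} (h : k ≤ j) :
    ‖x - x.appr j‖ ≤ (p : ℝ) ^ (-k : ℤ) := by
  have h1 := (PadicInt.norm_le_pow_iff_mem_span_pow _ j).2 (PadicInt.appr_spec j x)
  refine h1.trans (zpow_le_zpow_right₀ ?_ (by omega))
  exact_mod_cast (Fact.out : p.Prime).one_le

theorem norm_sub_trans {x y z : ℤ_[p]} {C : ℝ} (h1 : ‖x - y‖ ≤ C) (h2 : ‖x - z‖ ≤ C) :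
    ‖y - z‖ ≤ C := by
  rw [show y - z = -(x - y) + (x - z) by ring]
  exact (IsUltrametricDist.norm_add_le_max _ _).trans (max_le (by rwa [norm_neg]) h2)

theorem tendsto_pow_neg : Tendsto (fun k : ℕ => (p : ℝ) ^ (-k : ℤ)) atTop (𝓝 0) := by
  have hp : (1 : ℝ) < p := by exact_mod_cast (Fact.out : p.Prime).one_lt
  simpa [zpow_neg, Function.comp_def] using tendsto_inv_atTop_zero.comp (tendsto_pow_atTop_atTop_of_one_lt hp)

theorem gammaP_close (hp : 5 ≤ p) (k : ℕ) (x : ℤ_[p]) (n : ℕ)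
    (h : ‖x - n‖ ≤ (p : ℝ) ^ (-k : ℤ)) :
    ‖gammaP p x - gammaNat p n‖ ≤ (p : ℝ) ^ (-k : ℤ) := by
  have hc : CauchySeq fun k : ℕ => ((gammaNat p (x.appr k) : ℤ) : ℤ_[p]) := by
    refine cauchySeq_of_le_tendsto_0 _ (fun i j N hi hj => ?_) (tendsto_pow_neg (p := p))
    rw [dist_eq_norm]
    exact gammaNat_close hp N _ _ (norm_sub_trans (norm_sub_appr x hi) (norm_sub_appr x hj))
  have ht := (hc.tendsto_limUnder.sub_const ((gammaNat p n : ℤ) : ℤ_[p])).norm
  refine le_of_tendsto ht (eventually_atTop.2 ⟨k, fun j hj => ?_⟩)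
  exact gammaNat_close hp k _ _ (norm_sub_trans (norm_sub_appr x hj) h)

theorem gammaP_nat (hp : 5 ≤ p) (n : ℕ) : gammaP p (n : ℤ_[p]) = gammaNat p n := by
  rw [← sub_eq_zero, ← norm_le_zero_iff]
  refine ge_of_tendsto' (tendsto_pow_neg (p := p)) fun k => gammaP_close hp k _ n ?_
  simp only [sub_self, norm_zero]
  positivity

theorem gammaP_cont (hp : 5 ≤ p) : Continuous (gammaP p) := by
  refine Metric.continuous_iff.2 fun x ε hε => ?_
  obtain ⟨k, hk⟩ := ((tendsto_pow_neg (p := p)).eventually (gt_mem_nhds hε)).exists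
  have hp0 : (0 : ℝ) < p := by exact_mod_cast (by omega : 0 < p)
  refine ⟨(p : ℝ) ^ (-k : ℤ), zpow_pos hp0 _, fun y hy => ?_⟩
  rw [dist_eq_norm] at hy ⊢
  have h1 := norm_sub_appr y (le_refl k)
  have h2 := gammaP_close hp k y _ h1
  have h3 := gammaP_close hp k x _ (norm_sub_trans hy.le h1)
  rw [← norm_neg, neg_sub] at h2 h3
  exact (norm_sub_trans h2 h3).trans_lt hk

theorem dvd_natCast_iff (n : ℕ) : (p : ℤ_[p]) ∣ (n : ℤ_[p]) ↔ p ∣ n := by
  rw [← PadicInt.norm_lt_one_iff_dvd, PadicInt.norm_natCast_lt_one_iff]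

theorem exists_digit (x : ℤ_[p]) : ∃ y : ℤ_[p], x = (x.zmodRepr : ℤ_[p]) + p * y := by
  have h := PadicInt.sub_zmodRepr_mem x
  rw [PadicInt.maximalIdeal_eq_span_p, Ideal.mem_span_singleton] at h
  obtain ⟨y, hy⟩ := h
  exact ⟨y, by linear_combination hy⟩

theorem gammaP_succ_aux (hp : 5 ≤ p) (r : ℕ) (y : ℤ_[p]) :
    gammaP p (r + p * y + 1) =
      (if p ∣ r then -1 else -((r : ℤ_[p]) + p * y)) * gammaP p (r + p * y) := by
  have hc := gammaP_cont hp
  refine PadicInt.denseRange_natCast.induction_on y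
    (p := fun y : ℤ_[p] => gammaP p (r + p * y + 1) =
      (if p ∣ r then -1 else -((r : ℤ_[p]) + p * y)) * gammaP p (r + p * y))
    (isClosed_eq (by fun_prop) (by split_ifs <;> fun_prop)) fun n => ?_
  have e1 := gammaP_nat hp (r + p * n + 1)
  have e2 := gammaP_nat hp (r + p * n)
  have h : p ∣ r + p * n ↔ p ∣ r := (Nat.dvd_add_iff_left (dvd_mul_right p n)).symm
  rw [gammaNat_succ] at e1
  simp only [h] at e1
  push_cast at e1 e2
  rw [e1, e2]

theorem gammaP_succ_dvd (hp : 5 ≤ p) {x : ℤ_[p]} (h : (p : ℤ_[p]) ∣ x) :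
    gammaP p (x + 1) = -gammaP p x := by
  obtain ⟨y, rfl⟩ := h
  simpa using gammaP_succ_aux hp 0 y

theorem gammaP_succ_unit (hp : 5 ≤ p) {x : ℤ_[p]} (h : ¬ (p : ℤ_[p]) ∣ x) :
    gammaP p (x + 1) = -x * gammaP p x := by
  obtain ⟨y, hy⟩ := exists_digit x
  have h1 : ¬ p ∣ x.zmodRepr := by
    intro h1
    apply h
    rw [hy]
    exact dvd_add ((dvd_natCast_iff _).2 h1) (dvd_mul_right _ _)
  have := gammaP_succ_aux hp x.zmodRepr y
  rwa [if_neg h1, ← hy] at this

theorem gammaP_zero (hp : 5 ≤ p) : gammaP p 0 = 1 := by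
  simpa [gammaNat_zero] using gammaP_nat hp 0

theorem gammaP_refl_nat (hp : 5 ≤ p) (n : ℕ) :
    gammaP p ((n : ℤ_[p]) + 1) * gammaP p (-(n : ℤ_[p])) = (-1) ^ (n % p + 1) := by
  induction n with
  | zero =>
    have := gammaP_succ_dvd hp (dvd_zero (p : ℤ_[p]))
    simp only [Nat.cast_zero, neg_zero, this, gammaP_zero hp]
    simp
  | succ n ih =>
    have e : -(n : ℤ_[p]) = -((n + 1 : ℕ) : ℤ_[p]) + 1 := by push_cast; ring
    have e' : (n : ℤ_[p]) + 1 = ((n + 1 : ℕ) : ℤ_[p]) := by push_cast; ring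
    rw [e, e'] at ih
    by_cases h : p ∣ n + 1
    · have h' := (dvd_natCast_iff (p := p) _).2 h
      rw [gammaP_succ_dvd hp (dvd_neg.2 h')] at ih
      rw [gammaP_succ_dvd hp h', Nat.mod_eq_zero_of_dvd h]
      have h1 : n % p + 1 = p := by
        have h2 := Nat.mod_lt n (by omega : 0 < p)
        have h3 : p ∣ n % p + 1 := by
          have := Nat.mod_add_div n p
          exact (Nat.dvd_add_iff_left (dvd_mul_right p (n / p))).2
            (by rwa [show n % p + 1 + p * (n / p) = n + 1 by omega])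
        have := Nat.le_of_dvd (by omega) h3
        omega
      have ho : Odd p := ⟨p / 2, (p_odd hp).symm⟩
      rw [h1, ho.neg_one_pow] at ih
      linear_combination ih
    · have h' := (dvd_natCast_iff (p := p) _).not.2 h
      rw [gammaP_succ_unit hp (dvd_neg.not.2 h')] at ih
      rw [gammaP_succ_unit hp h']
      have h1 : (n + 1) % p = n % p + 1 := by
        have h2 := Nat.mod_lt n (by omega : 0 < p)
        have h3 : n % p + 1 ≠ p := by
          intro h3
          apply h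
          have := Nat.mod_add_div n p
          exact ⟨n / p + 1, by rw [mul_add]; omega⟩
        rw [Nat.add_mod, Nat.mod_eq_of_lt (by omega : 1 < p), Nat.mod_eq_of_lt (by omega)]
      rw [h1, pow_succ _ (n % p + 1)]
      linear_combination -ih

theorem gammaP_half (hp : 5 ≤ p) {hf : ℤ_[p]} (h2 : 2 * hf = 1) :
    gammaP p hf ^ 2 = (-1) ^ ((p + 1) / 2) := by
  have hc := gammaP_cont hp
  have key : ∀ y : ℤ_[p], gammaP p (((p / 2 : ℕ) : ℤ_[p]) + p * y + 1) *
      gammaP p (-(((p / 2 : ℕ) : ℤ_[p]) + p * y)) = (-1) ^ (p / 2 + 1) := by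
    intro y
    refine PadicInt.denseRange_natCast.induction_on y
      (p := fun y : ℤ_[p] => gammaP p (((p / 2 : ℕ) : ℤ_[p]) + p * y + 1) *
        gammaP p (-(((p / 2 : ℕ) : ℤ_[p]) + p * y)) = (-1) ^ (p / 2 + 1))
      (isClosed_eq (by fun_prop) continuous_const) fun n => ?_
    have := gammaP_refl_nat hp (p / 2 + p * n)
    rw [Nat.add_mul_mod_self_left, Nat.mod_eq_of_lt (by omega : p / 2 < p), Nat.cast_add,
      Nat.cast_mul] at this
    exact this
  have h := key (-hf)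
  have e := half_add hp h2
  rw [show ((p / 2 : ℕ) : ℤ_[p]) + p * -hf + 1 = hf by linear_combination e - h2,
    show -(((p / 2 : ℕ) : ℤ_[p]) + p * -hf) = hf by linear_combination -e] at h
  have := p_odd hp
  rw [sq, h, show (p + 1) / 2 = p / 2 + 1 by omega]

end Pool.Agent.MP_030fd4_nt

end

section

/-! The Dwork type congruence for even last digit. -/

namespace Pool.Agent.MP_030fd4_nt

open Finset

variable {p : ℕ} [Fact p.Prime]

/-- The Gamma factor at an even parameter 2 y. -/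
noncomputable def gfac (hf y : ℤ_[p]) : ℚ_[p] :=
  (-1) ^ ((p + 1) / 2) * (gammaP p (-y) : ℚ_[p]) ^ 2 * (gammaP p (y + hf) : ℚ_[p]) ^ 2

theorem gfac_zero (hp : 5 ≤ p) {hf : ℤ_[p]} (h2 : 2 * hf = 1) : gfac hf 0 = 1 := by
  have h := congrArg (fun z : ℤ_[p] => (z : ℚ_[p])) (gammaP_half hp h2)
  simp only [PadicInt.coe_pow, PadicInt.coe_neg, PadicInt.coe_one] at h
  rw [gfac, neg_zero, zero_add, gammaP_zero hp, h, PadicInt.coe_one, one_pow, mul_one, ← mul_pow]
  simp

theorem gfac_cont (hp : 5 ≤ p) (hf : ℤ_[p]) : Continuous (gfac hf) := by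
  have hc := gammaP_cont hp
  have hY := cont_coe (p := p)
  unfold gfac
  fun_prop

theorem dvd_half_iff {hf : ℤ_[p]} (h2 : 2 * hf = 1) (n : ℕ) :
    (p : ℤ_[p]) ∣ (n : ℤ_[p]) + hf ↔ p ∣ 2 * n + 1 := by
  rw [← dvd_natCast_iff]
  push_cast
  constructor
  · intro h
    have := h.mul_left 2
    rwa [show 2 * ((n : ℤ_[p]) + hf) = 2 * n + 1 by linear_combination h2] at this
  · intro h
    have := h.mul_left hf
    rwa [show hf * (2 * (n : ℤ_[p]) + 1) = n + hf by linear_combination (n : ℤ_[p]) * h2] at this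

theorem gfac_succ (hp : 5 ≤ p) {hf : ℤ_[p]} (h2 : 2 * hf = 1) (n : ℕ) :
    gfac hf ((n + 1 : ℕ) : ℤ_[p]) * (if p ∣ n + 1 then 1 else ((n : ℚ_[p]) + 1) ^ 2) =
      gfac hf (n : ℤ_[p]) * (if p ∣ 2 * n + 1 then 1 else (1 / 2 + (n : ℚ_[p])) ^ 2) := by
  have e1 : (gammaP p (-(n : ℤ_[p])) : ℚ_[p]) ^ 2 = (gammaP p (-((n + 1 : ℕ) : ℤ_[p])) : ℚ_[p]) ^ 2 *
      (if p ∣ n + 1 then 1 else ((n : ℚ_[p]) + 1) ^ 2) := by
    rw [show -(n : ℤ_[p]) = -((n + 1 : ℕ) : ℤ_[p]) + 1 by push_cast; ring]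
    split_ifs with h
    · rw [gammaP_succ_dvd hp (dvd_neg.2 ((dvd_natCast_iff _).2 h))]; simp
    · rw [gammaP_succ_unit hp (dvd_neg.not.2 ((dvd_natCast_iff _).not.2 h)), neg_neg,
        PadicInt.coe_mul, PadicInt.coe_natCast]
      push_cast; ring
  have e2 : (gammaP p (((n + 1 : ℕ) : ℤ_[p]) + hf) : ℚ_[p]) ^ 2 =
      (gammaP p ((n : ℤ_[p]) + hf) : ℚ_[p]) ^ 2 *
        (if p ∣ 2 * n + 1 then 1 else (1 / 2 + (n : ℚ_[p])) ^ 2) := by
    rw [show ((n + 1 : ℕ) : ℤ_[p]) + hf = (n : ℤ_[p]) + hf + 1 by push_cast; ring]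
    split_ifs with h
    · rw [gammaP_succ_dvd hp ((dvd_half_iff h2 n).2 h)]; simp
    · rw [gammaP_succ_unit hp ((dvd_half_iff h2 n).not.2 h), PadicInt.coe_mul, PadicInt.coe_neg,
        PadicInt.coe_add, PadicInt.coe_natCast, coe_half h2]
      ring
  unfold gfac
  rw [e1, e2]
  ring

theorem cen_step (hp : 5 ≤ p) {hf : ℤ_[p]} (h2 : 2 * hf = 1) (s : ℕ)
    (h0 : cen ℚ_[p] (p * s) ^ 2 = gfac hf ((p * s : ℕ) : ℤ_[p]) * cen ℚ_[p] s ^ 2) :
    ∀ b, b < p → cen ℚ_[p] (p * s + b) ^ 2 = gfac hf ((p * s + b : ℕ) : ℤ_[p]) * cen ℚ_[p] s ^ 2 *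
      (if b ≤ p / 2 then 1 else ((p : ℚ_[p]) * (1 / 2 + s)) ^ 2) := by
  intro b
  have ho := p_odd hp
  induction b with
  | zero => intro _; simpa using h0
  | succ b ih =>
    intro hb
    have i1 := ih (by omega)
    have g := gfac_succ hp h2 (p * s + b)
    have c := cen_succ (K := ℚ_[p]) (p * s + b)
    have d1 : ¬ p ∣ p * s + b + 1 := by
      rw [add_assoc, Nat.dvd_add_right (dvd_mul_right p s)]
      exact not_dvd_of_lt (by omega) hb
    have d2 : p ∣ 2 * (p * s + b) + 1 ↔ b = p / 2 := by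
      rw [show 2 * (p * s + b) + 1 = p * (2 * s) + (2 * b + 1) by ring,
        Nat.dvd_add_right (dvd_mul_right p _)]
      constructor
      · rintro ⟨c, hc⟩
        rcases (by omega : c = 0 ∨ c = 1 ∨ 2 ≤ c) with rfl | rfl | h
        · omega
        · omega
        · have := Nat.mul_le_mul_left p h
          omega
      · rintro rfl; exact ⟨1, by omega⟩
    rw [if_neg d1] at g
    simp only [d2] at g
    have hn := natCast_add_one_ne (K := ℚ_[p]) (p * s + b)
    rw [← add_assoc]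
    apply mul_left_cancel₀ (pow_ne_zero 2 hn)
    have c2 : (((p * s + b : ℕ) : ℚ_[p]) + 1) ^ 2 * cen ℚ_[p] (p * s + b + 1) ^ 2 =
        cen ℚ_[p] (p * s + b) ^ 2 * (1 / 2 + ((p * s + b : ℕ) : ℚ_[p])) ^ 2 := by
      rw [← mul_pow, c, mul_pow]
    rw [c2, i1]
    rcases lt_trichotomy b (p / 2) with h | h | h
    · rw [if_neg h.ne] at g
      rw [if_pos h.le, if_pos (by omega)]
      linear_combination (-cen ℚ_[p] s ^ 2) * g
    · rw [if_pos h] at g
      rw [if_pos h.le, if_neg (by omega)]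
      have e : (1 / 2 + ((p * s + b : ℕ) : ℚ_[p])) = p * (1 / 2 + s) := by
        have : ((2 * b + 1 : ℕ) : ℚ_[p]) = p := by rw [h, ho]
        push_cast at this ⊢
        linear_combination this / 2
      rw [e]
      linear_combination (-cen ℚ_[p] s ^ 2 * ((p : ℚ_[p]) * (1 / 2 + s)) ^ 2) * g
    · rw [if_neg h.ne'] at g
      rw [if_neg (by omega), if_neg (by omega)]
      linear_combination (-cen ℚ_[p] s ^ 2 * ((p : ℚ_[p]) * (1 / 2 + s)) ^ 2) * g

theorem cen_base (hp : 5 ≤ p) {hf : ℤ_[p]} (h2 : 2 * hf = 1) (s : ℕ) :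
    cen ℚ_[p] (p * s) ^ 2 = gfac hf ((p * s : ℕ) : ℤ_[p]) * cen ℚ_[p] s ^ 2 := by
  have ho := p_odd hp
  induction s with
  | zero => simp [gfac_zero hp h2]
  | succ s ih =>
    have i1 := cen_step hp h2 s ih (p - 1) (by omega)
    rw [if_neg (by omega)] at i1
    have g := gfac_succ hp h2 (p * s + (p - 1))
    have c := cen_succ (K := ℚ_[p]) (p * s + (p - 1))
    have c' := cen_succ (K := ℚ_[p]) s
    have e : p * s + (p - 1) + 1 = p * (s + 1) := by rw [mul_add]; omega
    have e' : ((p * s + (p - 1) : ℕ) : ℚ_[p]) + 1 = p * (s + 1) := by exact_mod_cast e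
    have d2 : ¬ p ∣ 2 * (p * s + (p - 1)) + 1 := by
      intro h
      have h1 : p ∣ 2 * (p * s + (p - 1)) + 1 + 1 := ⟨2 * (s + 1), by rw [← mul_assoc, mul_comm p 2, mul_assoc, ← e]; ring⟩
      exact not_dvd_of_lt (by omega) (by omega) ((Nat.dvd_add_right h).1 h1)
    rw [e, if_pos (dvd_mul_right _ _), if_neg d2] at g
    rw [e, e'] at c
    have hn := natCast_add_one_ne (K := ℚ_[p]) s
    have hp0 : (p : ℚ_[p]) ≠ 0 := by exact_mod_cast (by omega : p ≠ 0)
    apply mul_left_cancel₀ (pow_ne_zero 2 (mul_ne_zero hp0 hn))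
    have c2 : ((p : ℚ_[p]) * (s + 1)) ^ 2 * cen ℚ_[p] (p * (s + 1)) ^ 2 =
        cen ℚ_[p] (p * s + (p - 1)) ^ 2 * (1 / 2 + ((p * s + (p - 1) : ℕ) : ℚ_[p])) ^ 2 := by
      rw [← mul_pow, c, mul_pow]
    have c3 : ((s : ℚ_[p]) + 1) ^ 2 * cen ℚ_[p] (s + 1) ^ 2 = cen ℚ_[p] s ^ 2 * (1 / 2 + s) ^ 2 := by
      rw [← mul_pow, c', mul_pow]
    rw [c2, i1]
    linear_combination (-cen ℚ_[p] s ^ 2 * ((p : ℚ_[p]) * (1 / 2 + s)) ^ 2) * g -
      (p : ℚ_[p]) ^ 2 * gfac hf ((p * (s + 1) : ℕ) : ℤ_[p]) * c3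

theorem main_even (hp : 5 ≤ p) {hf : ℤ_[p]} (h2 : 2 * hf = 1) {b : ℕ} (hb : 2 * b < p)
    (t : ℤ_[p]) (M : ℕ) : ∃ R : ℤ_[p],
      trunc (((2 * b : ℕ) : ℚ_[p]) + p * t) (p * M) -
        gfac hf (b + p * (hf * t)) * trunc (t : ℚ_[p]) M =
        (p : ℚ_[p]) ^ 3 * (M : ℚ_[p]) ^ 3 * term (t : ℚ_[p]) M * R := by
  have ho := p_odd hp
  obtain ⟨β, hβ, H⟩ := structure_even hp (fun E => G2_c E hp h2 hb) (cont_c hf (2 * b)) (by
    intro n
    refine ⟨2 * n + 2, by omega, ?_⟩
    have e := trunc_blocks hp h2 hb ((2 * n + 1 : ℕ) : ℤ_[p]) (2 * n + 2)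
    rw [PadicInt.coe_natCast] at e
    rw [← e]
    have e2 : 2 * b + p * (2 * n + 1) = 2 * (b + p * n + p / 2) + 1 := by
      rw [mul_add, mul_left_comm]; omega
    have := trunc_odd (K := ℚ_[p]) (b + p * n + p / 2) (p * (2 * n + 2)) (by
      rw [← e2, show p * (2 * n + 2) = p + p * (2 * n + 1) by ring]; omega)
    rw [← e2] at this
    exact_mod_cast this)
  have hG : ∀ s : ℤ_[p], β (2 * s) = gfac hf (b + p * s) := by
    intro s
    have hc := gfac_cont hp hf
    refine PadicInt.denseRange_natCast.induction_on s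
      (p := fun s : ℤ_[p] => β (2 * s) = gfac hf (b + p * s))
      (isClosed_eq (by fun_prop) (by fun_prop)) fun n => ?_
    obtain ⟨R, hR⟩ := H ((2 * n : ℕ) : ℤ_[p]) (2 * n + 1)
    rw [← trunc_blocks hp h2 hb, PadicInt.coe_natCast, term_nat_eq_zero (by omega),
      trunc_even n _ (by omega)] at hR
    have e := trunc_even (K := ℚ_[p]) (p * n + b) (p * (2 * n + 1)) (by
      rw [show p * (2 * n + 1) = 2 * (p * n) + p by ring]; omega)
    rw [show ((2 * (p * n + b) : ℕ) : ℚ_[p]) = ((2 * b : ℕ) : ℚ_[p]) + p * ((2 * n : ℕ) : ℚ_[p]) by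
      push_cast; ring] at e
    have c := cen_step hp h2 n (cen_base hp h2 n) b (by omega)
    rw [if_pos (by omega), mul_one] at c
    rw [e, c] at hR
    apply mul_right_cancel₀ (pow_ne_zero 2 (cen_ne (K := ℚ_[p]) n))
    rw [show (2 : ℤ_[p]) * n = ((2 * n : ℕ) : ℤ_[p]) by push_cast; ring,
      show (b : ℤ_[p]) + p * n = ((p * n + b : ℕ) : ℤ_[p]) by push_cast; ring]
    linear_combination -hR
  obtain ⟨R, hR⟩ := H t M
  refine ⟨R, ?_⟩
  rw [← hG, show 2 * (hf * t) = t by linear_combination t * h2, trunc_blocks hp h2 hb]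
  exact hR

theorem exists_half (hp : 5 ≤ p) : ∃ hf : ℤ_[p], 2 * hf = 1 := by
  have h2u : IsUnit (2 : ℤ_[p]) := by
    rw [PadicInt.isUnit_iff]
    have := norm_nat_unit (p := p) (n := 2) (not_dvd_of_lt (by omega) (by omega))
    rw [← PadicInt.coe_natCast] at this
    simpa using this
  exact h2u.exists_right_inv

end Pool.Agent.MP_030fd4_nt

end
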